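import Pool.Agent.H252.MD.Iface

/-!
# Project MD of helper252, part CPT: compactness, from injectivity on the range to a uniform
estimate
-/

set_option autoImplicit false
set_option linter.unusedSectionVars false

namespace Pool.Agent.H860.MD

open Filter Topology Matrix
open scoped ComplexOrder

variable {X N : Type} [TopologicalSpace X] [Fintype N] [DecidableEq N]

/-- the square of the Euclidean norm -/
noncomputable def nq (ξ : N → ℂ) : ℝ := ∑ k, ‖ξ k‖ ^ 2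

theorem star_dot_self (ξ : N → ℂ) : star ξ ⬝ᵥ ξ = (nq ξ : ℂ) := by
  unfold nq dotProduct
  push_cast
  refine Finset.sum_congr rfl fun k _ => ?_
  rw [Pi.star_apply, ← Complex.conj_mul']
  rfl

theorem nq_nonneg (ξ : N → ℂ) : 0 ≤ nq ξ := Finset.sum_nonneg fun _ _ => sq_nonneg _

theorem nq_eq_zero {ξ : N → ℂ} (h : nq ξ = 0) : ξ = 0 := by
  funext k
  have h1 := (Finset.sum_eq_zero_iff_of_nonneg fun _ _ => sq_nonneg _).1 h k (Finset.mem_univ k)
  have h2 : ‖ξ k‖ = 0 := by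
    rwa [sq_eq_zero_iff] at h1
  exact norm_eq_zero.1 h2

theorem nq_smul (c : ℝ) (ξ : N → ℂ) : nq ((c : ℂ) • ξ) = c ^ 2 * nq ξ := by
  unfold nq
  rw [Finset.mul_sum]
  refine Finset.sum_congr rfl fun k _ => ?_
  rw [Pi.smul_apply, smul_eq_mul, norm_mul, mul_pow, Complex.norm_real, Real.norm_eq_abs, sq_abs]

theorem continuous_nq : Continuous (nq : (N → ℂ) → ℝ) := by
  unfold nq
  fun_prop

/-- the quadratic form of a matrix -/
noncomputable def qf (M : Matrix N N ℂ) (ξ : N → ℂ) : ℝ := (star ξ ⬝ᵥ (M *ᵥ ξ)).re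

theorem qf_smul (M : Matrix N N ℂ) (c : ℝ) (ξ : N → ℂ) :
    qf M ((c : ℂ) • ξ) = c ^ 2 * qf M ξ := by
  unfold qf
  have h : star ((c : ℂ) • ξ) = (c : ℂ) • star ξ := by
    rw [star_smul, Complex.star_def, Complex.conj_ofReal]
  rw [mulVec_smul, h, smul_dotProduct, dotProduct_smul, smul_eq_mul, smul_eq_mul, ← mul_assoc,
    ← Complex.ofReal_mul, Complex.re_ofReal_mul, sq]

theorem qf_eq {M : Matrix N N ℂ} (hM : M.PosSemidef) (ξ : N → ℂ) :
    star ξ ⬝ᵥ (M *ᵥ ξ) = (qf M ξ : ℂ) ∧ 0 ≤ qf M ξ := by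
  have h := hM.dotProduct_mulVec_nonneg ξ
  rw [Complex.nonneg_iff] at h
  refine ⟨Complex.ext ?_ ?_, h.1⟩
  · rfl
  · rw [← h.2, Complex.ofReal_im]

theorem continuous_qf {P : X → Matrix N N ℂ} (hP : Continuous P) :
    Continuous (fun y : X × (N → ℂ) => qf (P y.1) y.2) := by
  unfold qf
  refine Complex.continuous_re.comp ?_
  refine Continuous.dotProduct ?_ ?_
  · exact continuous_star.comp continuous_snd
  · exact (hP.comp continuous_fst).matrix_mulVec continuous_snd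

theorem isCompact_sphere : IsCompact {ξ : N → ℂ | nq ξ = 1} := by
  refine Metric.isCompact_of_isClosed_isBounded
    (isClosed_singleton.preimage continuous_nq) ?_
  refine (Metric.isBounded_closedBall (x := (0 : N → ℂ)) (r := 1)).subset fun ξ hξ => ?_
  rw [mem_closedBall_zero_iff, pi_norm_le_iff_of_nonneg zero_le_one]
  intro k
  have h1 : ‖ξ k‖ ^ 2 ≤ nq ξ :=
    Finset.single_le_sum (f := fun k => ‖ξ k‖ ^ 2) (fun _ _ => sq_nonneg _) (Finset.mem_univ k)
  have h2 : nq ξ = 1 := hξ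
  rw [h2] at h1
  exact (sq_le_one_iff₀ (norm_nonneg _)).1 h1

/-- the abstract statement -/
theorem key (P T : X → Matrix N N ℂ) (K : Set X) (hK : IsCompact K) (hP : Continuous P)
    (hT : Continuous T) (pP : ∀ x ∈ K, (P x).PosSemidef) (pT : ∀ x ∈ K, (T x).PosSemidef)
    (h : ∀ x ∈ K, ∀ ξ : N → ℂ, star ξ ⬝ᵥ (P x *ᵥ ξ) = 0 → star ξ ⬝ᵥ (T x *ᵥ ξ) = 0) (θ : ℝ)
    (hθ : 0 < θ) :
    ∃ C : ℝ, 0 ≤ C ∧ ∀ x ∈ K, ((θ : ℂ) • (1 : Matrix N N ℂ) + (C : ℂ) • P x - T x).PosSemidef := by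
  set S : Set (X × (N → ℂ)) := (K ×ˢ {ξ : N → ℂ | nq ξ = 1}) ∩
    {y | θ ≤ qf (T y.1) y.2} with hS
  have hSc : IsCompact S := (hK.prod isCompact_sphere).inter_right
    (isClosed_le continuous_const (continuous_qf hT))
  -- the estimate on the sphere
  have hmain : ∃ C : ℝ, 0 ≤ C ∧ ∀ x ∈ K, ∀ ξ : N → ℂ, nq ξ = 1 →
      0 ≤ θ + C * qf (P x) ξ - qf (T x) ξ := by
    rcases S.eq_empty_or_nonempty with hE | hne
    · refine ⟨0, le_rfl, fun x hx ξ hξ => ?_⟩
      by_contra hlt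
      have h1 : (x, ξ) ∈ S := ⟨⟨hx, hξ⟩, by
        change θ ≤ qf (T x) ξ
        linarith⟩
      rw [hE] at h1
      exact h1
    · obtain ⟨y0, hy0, hmin⟩ := hSc.exists_isMinOn hne (continuous_qf hP).continuousOn
      obtain ⟨y1, hy1, hmax⟩ := hSc.exists_isMaxOn hne (continuous_qf hT).continuousOn
      set κ := qf (P y0.1) y0.2 with hκ
      set M := qf (T y1.1) y1.2 with hM
      have hκ0 : 0 < κ := by
        have h1 := qf_eq (pP y0.1 hy0.1.1) y0.2
        rcases h1.2.lt_or_eq with h2 | h2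
        · exact h2
        · exfalso
          have h3 := h y0.1 hy0.1.1 y0.2 (by rw [h1.1, ← h2, Complex.ofReal_zero])
          have h4 : θ ≤ qf (T y0.1) y0.2 := hy0.2
          unfold qf at h4
          rw [h3, Complex.zero_re] at h4
          linarith
      have hM0 : 0 ≤ M := (qf_eq (pT y1.1 hy1.1.1) y1.2).2
      refine ⟨M / κ, by positivity, fun x hx ξ hξ => ?_⟩
      have hp := (qf_eq (pP x hx) ξ).2
      rcases lt_or_ge (qf (T x) ξ) θ with h1 | h1
      · have h2 : 0 ≤ M / κ * qf (P x) ξ := by positivity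
        linarith
      · have h2 : (x, ξ) ∈ S := ⟨⟨hx, hξ⟩, h1⟩
        have h3 : κ ≤ qf (P x) ξ := hmin h2
        have h4 : qf (T x) ξ ≤ M := hmax h2
        have h5 : M ≤ M / κ * qf (P x) ξ := by
          rw [div_mul_eq_mul_div, le_div_iff₀ hκ0]
          exact mul_le_mul_of_nonneg_left h3 hM0
        linarith
  obtain ⟨C, hC, hC1⟩ := hmain
  refine ⟨C, hC, fun x hx => ?_⟩
  have hθ' : (0 : ℂ) ≤ (θ : ℂ) := Complex.zero_le_real.2 hθ.le
  have hC' : (0 : ℂ) ≤ (C : ℂ) := Complex.zero_le_real.2 hC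
  refine PosSemidef.of_dotProduct_mulVec_nonneg
    (((PosSemidef.one.smul hθ').add ((pP x hx).smul hC')).isHermitian.sub
      (pT x hx).isHermitian) fun ξ => ?_
  rw [sub_mulVec, add_mulVec, smul_mulVec, smul_mulVec, one_mulVec, dotProduct_sub,
    dotProduct_add, dotProduct_smul, dotProduct_smul, star_dot_self, (qf_eq (pP x hx) ξ).1,
    (qf_eq (pT x hx) ξ).1, smul_eq_mul, smul_eq_mul, ← Complex.ofReal_mul, ← Complex.ofReal_mul,
    ← Complex.ofReal_add, ← Complex.ofReal_sub, Complex.zero_le_real]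
  rcases (nq_nonneg ξ).lt_or_eq with h1 | h1
  · have h2 := hC1 x hx (((Real.sqrt (nq ξ))⁻¹ : ℝ) • ξ) ?_
    · have e : (((Real.sqrt (nq ξ))⁻¹ : ℝ) • ξ) = (((Real.sqrt (nq ξ))⁻¹ : ℝ) : ℂ) • ξ := by
        funext k
        rw [Pi.smul_apply, Pi.smul_apply, Complex.real_smul, smul_eq_mul]
      rw [e, qf_smul, qf_smul, inv_pow, Real.sq_sqrt h1.le] at h2
      have h3 : 0 ≤ nq ξ * (θ + C * ((nq ξ)⁻¹ * qf (P x) ξ) - (nq ξ)⁻¹ * qf (T x) ξ) :=
        mul_nonneg h1.le h2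
      have h4 : nq ξ * (nq ξ)⁻¹ = 1 := mul_inv_cancel₀ h1.ne'
      have h5 : nq ξ * (θ + C * ((nq ξ)⁻¹ * qf (P x) ξ) - (nq ξ)⁻¹ * qf (T x) ξ) =
          θ * nq ξ + C * qf (P x) ξ - qf (T x) ξ := by
        linear_combination (C * qf (P x) ξ - qf (T x) ξ) * h4
      rwa [h5] at h3
    · have e : (((Real.sqrt (nq ξ))⁻¹ : ℝ) • ξ) = (((Real.sqrt (nq ξ))⁻¹ : ℝ) : ℂ) • ξ := by
        funext k
        rw [Pi.smul_apply, Pi.smul_apply, Complex.real_smul, smul_eq_mul]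
      rw [e, nq_smul, inv_pow, Real.sq_sqrt h1.le]
      exact inv_mul_cancel₀ h1.ne'
  · have h2 : ξ = 0 := nq_eq_zero h1.symm
    subst h2
    have e : ∀ M : Matrix N N ℂ, qf M 0 = 0 := by
      intro M
      unfold qf
      rw [mulVec_zero, dotProduct_zero, Complex.zero_re]
    rw [e, e, ← h1]
    simp

/-- part CPT -/
theorem s_CPT : Pool.Agent.H252.MD.S_CPT := by
  intro X N _ _ _ α β v K hK hα hβ hv hαH hβP hinj θ hθ
  have hcα : Continuous fun x => (α x)ᴴ := hα.matrix_conjTranspose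
  have hcv : Continuous fun x => (v x)ᴴ := hv.matrix_conjTranspose
  obtain ⟨C, hC, h⟩ := key (fun x => (α x)ᴴ * (v x)ᴴ * β x * v x * α x)
    (fun x => (α x)ᴴ * α x) K hK
    ((((hcα.matrix_mul hcv).matrix_mul hβ).matrix_mul hv).matrix_mul hα)
    (hcα.matrix_mul hα)
    (fun x hx => by
      have e : (α x)ᴴ * (v x)ᴴ * β x * v x * α x = (v x * α x)ᴴ * β x * (v x * α x) := by
        rw [conjTranspose_mul]
        simp only [mul_assoc]
      rw [e]
      exact (hβP x hx).conjTranspose_mul_mul_same _)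
    (fun x hx => posSemidef_conjTranspose_mul_self _)
    (fun x hx ξ h0 => by
      have e : (α x)ᴴ * (v x)ᴴ * β x * v x * α x = (v x * α x)ᴴ * β x * (v x * α x) := by
        rw [conjTranspose_mul]
        simp only [mul_assoc]
      have e1 : star ξ ⬝ᵥ (((v x * α x)ᴴ * β x * (v x * α x)) *ᵥ ξ) =
          star ((v x * α x) *ᵥ ξ) ⬝ᵥ (β x *ᵥ ((v x * α x) *ᵥ ξ)) := by
        rw [← mulVec_mulVec, ← mulVec_mulVec, dotProduct_mulVec, ← star_mulVec]
      rw [e, e1, (hβP x hx).dotProduct_mulVec_zero_iff, ← mulVec_mulVec] at h0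
      have h1 := hinj x hx ξ h0
      rw [← mulVec_mulVec, h1, mulVec_zero, dotProduct_zero]) θ hθ
  refine ⟨C, hC, fun x hx => ?_⟩
  have h1 := h x hx
  rw [(hαH x hx).eq] at h1
  exact h1

end Pool.Agent.H860.MD
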