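import Pool.Agent.H770.GS.TA

/-!
# Project TA, part `S_n3far`: the far inequality for `n3`
-/

set_option autoImplicit false

open MeasureTheory Set intervalIntegral Filter Topology

namespace Pool.Agent.H860.GSn3far

open Pool.Agent.H770.GS Pool.Agent.Helper82.GC

theorem lim (hrep : S_repr) (hreg : S_n3reg) {r c : ℝ} (hr : 0 < r) (hc : 0 < c) (v : ℝ) :
    Tendsto (fun τ => cv r c (cv r 1 (cv r 1 (kg τ))) v) (𝓝[>] 0) (𝓝 (n3 r c v)) := by
  obtain ⟨hcont, hodd, C, hC⟩ := hreg r c hr hc
  have h1 : Tendsto (fun τ : ℝ => ∫ s, gs 1 s * n3 r c (v + τ * s)) (𝓝[>] 0)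
      (𝓝 (∫ s, gs 1 s * n3 r c v)) := by
    refine tendsto_integral_filter_of_dominated_convergence (fun s => gs 1 s * C) ?_ ?_
      (gs_one_integrable.mul_const C) ?_
    · refine Eventually.of_forall fun τ => ?_
      refine Continuous.aestronglyMeasurable ?_
      exact (gs_cont 1).mul (hcont.comp (by fun_prop))
    · refine Eventually.of_forall fun τ => Eventually.of_forall fun s => ?_
      rw [Real.norm_eq_abs, abs_mul, abs_of_nonneg (gs_nonneg 1 s)]
      exact mul_le_mul_of_nonneg_left (hC _) (gs_nonneg 1 s)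
    · refine Eventually.of_forall fun s => ?_
      refine Tendsto.const_mul _ ?_
      have hcs : Continuous fun τ : ℝ => n3 r c (v + τ * s) := hcont.comp (by fun_prop)
      have h2 := hcs.tendsto 0
      simp only [zero_mul, add_zero] at h2
      exact h2.mono_left nhdsWithin_le_nhds
  have h2 : (∫ s, gs 1 s * n3 r c v) = n3 r c v := by
    rw [MeasureTheory.integral_mul_const, gs_one_int, one_mul]
  rw [h2] at h1
  refine h1.congr' ?_
  filter_upwards [self_mem_nhdsWithin] with τ hτ
  have hτ : 0 < τ := hτ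
  rw [hrep r c τ hr hc hτ v]
  have h3 := MeasureTheory.Measure.integral_comp_mul_left
    (fun u => gs τ u * n3 r c (v + u)) τ
  have h4 : |τ⁻¹| = τ⁻¹ := abs_of_pos (inv_pos.2 hτ)
  rw [h4, smul_eq_mul] at h3
  have h5 : ∫ u, gs τ u * n3 r c (v + u) = τ * ∫ s, gs τ (τ * s) * n3 r c (v + τ * s) := by
    rw [h3, ← mul_assoc, mul_inv_cancel₀ hτ.ne', one_mul]
  rw [h5, ← MeasureTheory.integral_const_mul]
  refine MeasureTheory.integral_congr_ae (Filter.Eventually.of_forall fun s => ?_)
  simp only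
  rw [gs_scale hτ]
  field_simp

theorem t : S_n3far := by
  intro hrep hreg r c hr hc v v' hv hvv hs
  have h1 := (lim hrep hreg hr hc v').const_mul v
  have h2 := (lim hrep hreg hr hc v).const_mul v'
  refine le_of_tendsto_of_tendsto' h1 h2 fun τ => ?_
  have hP : P 0 (Pool.Agent.H770.GS.cv r 1 (Pool.Agent.H770.GS.cv r 1 (kg τ))) := (kg_P τ).pair hr zero_le_one
  have hP2 : P (c * r) (Pool.Agent.H770.GS.cv r 1 (Pool.Agent.H770.GS.cv r 1 (kg τ))) := hP.mono (mul_nonneg hc.le hr.le)
  exact (hP2.cv hr hc.le le_rfl).le v v' hv hvv hs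

end Pool.Agent.H860.GSn3far
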