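import Pool.Agent.H465.CG.Stm
import Pool.Graph.R_seed8.W585.VD.NF

/-!
# Project CG, part DIV: the number of the divisors of an ideal, uniformly in all quadratic fields
-/

set_option autoImplicit false

open NumberField UniqueFactorizationMonoid Ideal

namespace Pool.Agent.H860.CGSDiv

theorem t : Pool.Agent.H465.CG.SDiv := by
  classical
  intro ε hε
  have hlog2 : 0 < Real.log 2 := Real.log_pos (by norm_num)
  obtain ⟨A, hA⟩ : ∃ A : ℝ, A = max 1 (1 / (ε * Real.log 2)) := ⟨_, rfl⟩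
  have hA1 : 1 ≤ A := by rw [hA]; exact le_max_left _ _
  have hAε : 1 ≤ A * (ε * Real.log 2) := by
    have h1 : 1 / (ε * Real.log 2) ≤ A := by rw [hA]; exact le_max_right _ _
    rwa [div_le_iff₀ (mul_pos hε hlog2)] at h1
  obtain ⟨R, hR⟩ := exists_nat_ge ((2 : ℝ) ^ (1 / ε))
  have hR2 : 2 ≤ (R : ℝ) ^ ε := by
    have h1 : ((2 : ℝ) ^ (1 / ε)) ^ ε ≤ (R : ℝ) ^ ε :=
      Real.rpow_le_rpow (by positivity) hR hε.le
    rwa [← Real.rpow_mul (by norm_num), one_div, inv_mul_cancel₀ hε.ne', Real.rpow_one] at h1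
  obtain ⟨t, ht⟩ : ∃ t : ℕ, R.factorial ^ 2 < 2 ^ t := ⟨_, Nat.lt_two_pow_self⟩
  refine ⟨A ^ t, one_le_pow₀ hA1, ?_⟩
  intro K _ _ hK J hJ S hS
  have h1 := Pool.Agent.W585.VD.divisors_bound ε A hε R t hA1 hAε hR2 J hJ (by rw [hK]; exact ht)
  refine le_trans ?_ h1
  have h2 : S.card ≤ (Finset.Iic (normalizedFactors J)).card := by
    refine Finset.card_le_card_of_injOn (fun 𝔠 => normalizedFactors 𝔠) ?_ ?_
    · intro 𝔠 h𝔠
      have hd := hS 𝔠 h𝔠
      have hc : 𝔠 ≠ ⊥ := by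
        rintro rfl
        exact hJ (by rw [← Ideal.zero_eq_bot] at hd ⊢; exact zero_dvd_iff.1 hd)
      rw [Finset.mem_coe, Finset.mem_Iic]
      exact (dvd_iff_normalizedFactors_le_normalizedFactors hc hJ).1 hd
    · intro 𝔠 h𝔠 𝔡 h𝔡 h
      have hn : ∀ 𝔵 ∈ S, 𝔵 ≠ ⊥ := by
        rintro 𝔵 h𝔵 rfl
        have hd := hS _ h𝔵
        exact hJ (by rw [← Ideal.zero_eq_bot] at hd ⊢; exact zero_dvd_iff.1 hd)
      have h' : normalizedFactors 𝔠 = normalizedFactors 𝔡 := h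
      rw [← Ideal.prod_normalizedFactors_eq_self (hn 𝔠 h𝔠), h',
        Ideal.prod_normalizedFactors_eq_self (hn 𝔡 h𝔡)]
  exact_mod_cast h2

end Pool.Agent.H860.CGSDiv
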