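import Pool.Agent.H546.APStm

set_option autoImplicit false

/-!
# Apery polynomials at CM points, AP6: the Hasse coefficient modulo `p`
-/

namespace Pool.Agent.H860.AP6

open Polynomial Finset
open Pool.Agent.H546 Pool.Agent.H546.AP
open Pool.Agent.Q267.CDE (R p_sq)
open Pool.Agent.Q267.Seven (dl dl_succ)

/-- the coefficients of `b` with respect to the powers of `1 - X` -/
def am (e m : ℕ) : ℕ := e.choose (2 * m) * (2 * m).choose m * 2 ^ (e - 2 * m)

theorem am_succ (e m : ℕ) : 4 * ((m : ℤ) + 1) ^ 2 * am e (m + 1) =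
    ((e : ℤ) - 2 * m) * ((e : ℤ) - 2 * m - 1) * am e m := by
  rcases lt_or_ge e (2 * m + 2) with h | h
  · have h1 : am e (m + 1) = 0 := by
      unfold am
      rw [Nat.choose_eq_zero_of_lt (show e < 2 * (m + 1) by omega), zero_mul, zero_mul]
    rw [h1]
    rcases lt_or_ge e (2 * m) with h2 | h2
    · have h3 : am e m = 0 := by
        unfold am
        rw [Nat.choose_eq_zero_of_lt h2, zero_mul, zero_mul]
      rw [h3]
      simp
    · have h3 : e = 2 * m ∨ e = 2 * m + 1 := by omega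
      rcases h3 with h3 | h3
      · rw [h3]
        push_cast
        ring
      · rw [h3]
        push_cast
        ring
  · obtain ⟨r, hr⟩ : ∃ r, e = 2 * m + 2 + r := ⟨e - (2 * m + 2), by omega⟩
    have h1 := Nat.choose_succ_right_eq e (2 * m)
    have h2 := Nat.choose_succ_right_eq e (2 * m + 1)
    have h3 := Nat.succ_mul_centralBinom_succ m
    rw [Nat.centralBinom_eq_two_mul_choose, Nat.centralBinom_eq_two_mul_choose] at h3
    have e1 : e - 2 * m = r + 2 := by omega
    have e2 : e - (2 * m + 1) = r + 1 := by omega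
    have e3 : e - 2 * (m + 1) = r := by omega
    have e4 : 2 * m + 1 + 1 = 2 * (m + 1) := by ring
    rw [e1] at h1
    rw [e2, e4] at h2
    have h1' := congrArg (Nat.cast : ℕ → ℤ) h1
    have h2' := congrArg (Nat.cast : ℕ → ℤ) h2
    have h3' := congrArg (Nat.cast : ℕ → ℤ) h3
    push_cast at h1' h2' h3'
    have he : (e : ℤ) = 2 * m + 2 + r := by rw [hr]; push_cast; ring
    unfold am
    rw [e1, e3]
    push_cast
    rw [he]
    set A0 : ℤ := (e.choose (2 * m) : ℤ)
    set A1 : ℤ := (e.choose (2 * m + 1) : ℤ)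
    set A2 : ℤ := (e.choose (2 * (m + 1)) : ℤ)
    set c0 : ℤ := ((2 * m).choose m : ℤ)
    set c1 : ℤ := ((2 * (m + 1)).choose (m + 1) : ℤ)
    linear_combination (4 * ((m : ℤ) + 1) * A2 * 2 ^ r) * h3' +
      (4 * 2 ^ r * c0 * (2 * (m : ℤ) + 1)) * h2' + (4 * 2 ^ r * c0 * ((r : ℤ) + 1)) * h1'

variable (p : ℕ) [hp : Fact p.Prime]

theorem am_dl_aux (hp2 : p ≠ 2) (e n : ℕ) (he : 2 * e + 1 = p) (hn4 : 4 * n + 1 = p ∨ 4 * n + 3 = p)
    (m : ℕ) (hm : m < p) : ((am e m : ℕ) : ZMod p) = 2 ^ e * ((dl n m : ℤ) : ZMod p) := by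
  induction m with
  | zero => simp [am, dl]
  | succ m ih =>
    have h2e : 2 * (e : ZMod p) + 1 = 0 := by
      have h' := congrArg (Nat.cast : ℕ → ZMod p) he
      push_cast at h'
      rw [h']
      exact ZMod.natCast_self p
    have hn : (4 * (n : ZMod p) + 1) * (4 * (n : ZMod p) + 3) = 0 := by
      rcases hn4 with h | h
      · have h' := congrArg (Nat.cast : ℕ → ZMod p) h
        push_cast at h'
        rw [h', ZMod.natCast_self, zero_mul]
      · have h' := congrArg (Nat.cast : ℕ → ZMod p) h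
        push_cast at h'
        rw [h', ZMod.natCast_self, mul_zero]
    have h1 := congrArg (Int.cast : ℤ → ZMod p) (am_succ e m)
    have h2 := congrArg (Int.cast : ℤ → ZMod p) (dl_succ n m)
    push_cast at h1 h2
    have ih' := ih (by omega)
    have h20 : (2 : ZMod p) ≠ 0 := by
      intro h
      have h' : ((2 : ℕ) : ZMod p) = 0 := by exact_mod_cast h
      rw [ZMod.natCast_eq_zero_iff] at h'
      exact hp2 ((Nat.prime_dvd_prime_iff_eq hp.out Nat.prime_two).mp h')
    have hm0 : ((m : ZMod p) + 1) ≠ 0 := by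
      intro h
      have h' : ((m + 1 : ℕ) : ZMod p) = 0 := by
        push_cast
        exact h
      rw [ZMod.natCast_eq_zero_iff] at h'
      have := Nat.le_of_dvd (by omega) h'
      omega
    have hne : (2 : ZMod p) ^ 4 * ((m : ZMod p) + 1) ^ 2 ≠ 0 :=
      mul_ne_zero (pow_ne_zero _ h20) (pow_ne_zero _ hm0)
    apply mul_left_cancel₀ hne
    linear_combination 4 * h1 - 16 * 2 ^ e * h2 +
      (4 * (m : ZMod p) + 1) * (4 * (m : ZMod p) + 3) * ih' +
      (2 * (e : ZMod p) - 8 * (m : ZMod p) - 3) * (am e m : ZMod p) * h2e +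
      2 ^ e * (dl n m : ZMod p) * hn

theorem am_dl (hp2 : p ≠ 2) (m : ℕ) (hm : m < p) : ((am ((p - 1) / 2) m : ℕ) : ZMod p) =
    2 ^ ((p - 1) / 2) * ((dl (p / 4) m : ℤ) : ZMod p) := by
  have hodd : p % 2 = 1 := by
    rcases hp.out.eq_two_or_odd with h | h
    · exact absurd h hp2
    · exact h
  exact am_dl_aux p hp2 _ _ (by omega) (by omega) m hm

theorem two_pow (hp2 : p ≠ 2) : (2 : ZMod p) ^ ((p - 1) / 2) * (-1) ^ (p / 4) =
    (-1) ^ ((p - 1) / 2) := by
  have hodd : p % 2 = 1 := by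
    rcases hp.out.eq_two_or_odd with h | h
    · exact absurd h hp2
    · exact h
  have h1 := legendreSym.eq_pow p 2
  rw [legendreSym.at_two hp2, ZMod.χ₈_nat_eq_if_mod_eight] at h1
  have e1 : p / 2 = (p - 1) / 2 := by omega
  rw [e1] at h1
  have h8 : p % 8 = 1 ∨ p % 8 = 3 ∨ p % 8 = 5 ∨ p % 8 = 7 := by omega
  have h0 : ¬ p % 2 = 0 := by omega
  rw [if_neg h0] at h1
  rcases h8 with h | h | h | h
  · have ha : Even (p / 4) := by rw [Nat.even_iff]; omega
    have hb : Even ((p - 1) / 2) := by rw [Nat.even_iff]; omega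
    rw [if_pos (by omega)] at h1
    push_cast at h1
    rw [← h1, ha.neg_one_pow, hb.neg_one_pow, one_mul]
  · have ha : Even (p / 4) := by rw [Nat.even_iff]; omega
    have hb : Odd ((p - 1) / 2) := by rw [Nat.odd_iff]; omega
    rw [if_neg (by omega)] at h1
    push_cast at h1
    rw [← h1, ha.neg_one_pow, hb.neg_one_pow, mul_one]
  · have ha : Odd (p / 4) := by rw [Nat.odd_iff]; omega
    have hb : Even ((p - 1) / 2) := by rw [Nat.even_iff]; omega
    rw [if_neg (by omega)] at h1
    push_cast at h1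
    rw [← h1, ha.neg_one_pow, hb.neg_one_pow]
    ring
  · have ha : Odd (p / 4) := by rw [Nat.odd_iff]; omega
    have hb : Odd ((p - 1) / 2) := by rw [Nat.odd_iff]; omega
    rw [if_pos (by omega)] at h1
    push_cast at h1
    rw [← h1, ha.neg_one_pow, hb.neg_one_pow, one_mul]

/-- a congruence modulo `p` gives an equality after the multiplication by `p` -/
theorem lift_mul {a b : ℤ} (h : (a : ZMod p) = (b : ZMod p)) :
    (p : R p) * (a : R p) = p * (b : R p) := by
  rw [ZMod.intCast_eq_intCast_iff_dvd_sub] at h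
  obtain ⟨c, hc⟩ := h
  have h1 : b = a + p * c := by linarith
  rw [h1]
  push_cast
  have h2 := p_sq p
  linear_combination (-(c : R p)) * h2

omit hp in
theorem C_natCast' (n : ℕ) : C ((n : ℕ) : R p) = ((n : ℕ) : (R p)[X]) := by
  rw [map_natCast]

theorem p_bq (hp2 : p ≠ 2) : (p : (R p)[X]) * bq (R p) ((p - 1) / 2) =
    (p : (R p)[X]) * (2 ^ ((p - 1) / 2) * lg (p / 4) (1 - X : (R p)[X])) := by
  have hp1 := hp.out.two_le
  have hodd : p % 2 = 1 := by
    rcases hp.out.eq_two_or_odd with h | h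
    · exact absurd h hp2
    · exact h
  have e1 : (p - 1) / 2 / 2 = p / 4 := by omega
  unfold bq lg
  rw [e1, mul_sum, mul_sum, mul_sum]
  refine sum_congr rfl fun m hm => ?_
  rw [mem_range] at hm
  have h1 := am_dl p hp2 m (by omega)
  have h2 : (p : R p) * (((am ((p - 1) / 2) m : ℕ) : ℤ) : R p) =
      p * ((2 ^ ((p - 1) / 2) * dl (p / 4) m : ℤ) : R p) := by
    apply lift_mul
    push_cast
    exact h1
  have h3 := congrArg (C : R p → (R p)[X]) h2
  rw [map_mul, map_mul] at h3
  push_cast at h3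
  simp only [map_natCast, map_intCast, map_mul, map_pow, map_ofNat] at h3
  have h4 : (C (((((p - 1) / 2).choose (2 * m) * (2 * m).choose m *
      2 ^ ((p - 1) / 2 - 2 * m) : ℕ) : R p)) : (R p)[X]) = ((am ((p - 1) / 2) m : ℕ) : (R p)[X]) :=
    C_natCast' p _
  rw [h4]
  linear_combination (1 - X) ^ m * h3

theorem p_lg (hp2 : p ≠ 2) : (p : (R p)[X]) * lg (3 * p / 4) (X : (R p)[X]) =
    (p : (R p)[X]) * lg (p / 4) (X : (R p)[X]) := by
  have hp1 := hp.out.two_le
  rw [← lg_ext (p / 4) p (by omega), ← lg_ext (3 * p / 4) p (by omega), mul_sum, mul_sum]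
  refine sum_congr rfl fun m hm => ?_
  obtain ⟨-, h2⟩ := u4_leg p hp2 m (mem_range.mp hm)
  have h3 := congrArg (C : R p → (R p)[X]) h2
  rw [map_mul, map_mul, map_natCast, map_intCast, map_intCast] at h3
  linear_combination (-(X : (R p)[X]) ^ m) * h3

theorem h_S_bT : S_bT := by
  intro p hp hp2
  have h1 := p_bq p hp2
  have h2 := p_lg p hp2
  rw [lg_neg] at h1
  have h3 : (p : R p) * ((2 ^ ((p - 1) / 2) * (-1) ^ (p / 4) : ℤ) : R p) =
      p * (((-1) ^ ((p - 1) / 2) : ℤ) : R p) := by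
    apply lift_mul
    push_cast
    exact two_pow p hp2
  have h4 := congrArg (C : R p → (R p)[X]) h3
  rw [map_mul, map_mul] at h4
  push_cast at h4
  simp only [map_natCast, map_mul, map_pow, map_ofNat, map_neg, map_one] at h4
  unfold tq
  linear_combination 4 * h1 - (-1) ^ ((p - 1) / 2) * h2 + 4 * lg (p / 4) (X : (R p)[X]) * h4

end Pool.Agent.H860.AP6
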