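import Mathlib
import Pool.Agent.H576.RD.Stm

set_option autoImplicit false

/-! # Project RD (helper576), statement B2: layered case, local structure at the origin -/

namespace Pool.Agent.H860

open Pool.Agent.H576.RD Real

theorem B2_nsq (v : E) : ‖v‖ ^ 2 = v 0 ^ 2 + v 1 ^ 2 + v 2 ^ 2 := by
  rw [EuclideanSpace.real_norm_sq_eq, Fin.sum_univ_three]

@[simp] theorem B2_r0 (θ : ℝ) (v : E) : rotE θ v 0 = cos θ * v 0 - sin θ * v 1 := rfl
@[simp] theorem B2_r1 (θ : ℝ) (v : E) : rotE θ v 1 = sin θ * v 0 + cos θ * v 1 := rfl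
@[simp] theorem B2_r2 (θ : ℝ) (v : E) : rotE θ v 2 = v 2 := rfl
theorem B2_s0 (v : E) : rrE 0 v 0 = v 0 := by
  show cos 0 * v 0 - sin 0 * v 1 = v 0
  simp
theorem B2_s1 (v : E) : rrE 0 v 1 = v 1 := by
  show sin 0 * v 0 + cos 0 * v 1 = v 1
  simp
theorem B2_s2 (v : E) : rrE 0 v 2 = -(v 2) := rfl

theorem B2_ext {v w : E} (h0 : v 0 = w 0) (h1 : v 1 = w 1) (h2 : v 2 = w 2) : v = w := by
  ext i
  fin_cases i
  · exact h0
  · exact h1
  · exact h2

theorem B2_norm_eq {v w : E} (h : v 0 ^ 2 + v 1 ^ 2 + v 2 ^ 2 = w 0 ^ 2 + w 1 ^ 2 + w 2 ^ 2) :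
    ‖v‖ = ‖w‖ := by
  have h1 : ‖v‖ ^ 2 = ‖w‖ ^ 2 := by rw [B2_nsq, B2_nsq, h]
  exact (sq_eq_sq₀ (norm_nonneg _) (norm_nonneg _)).1 h1

theorem B2_rot_norm (θ : ℝ) (v : E) : ‖rotE θ v‖ = ‖v‖ := by
  apply B2_norm_eq
  rw [B2_r0, B2_r1, B2_r2]
  have h := sin_sq_add_cos_sq θ
  linear_combination (v 0 ^ 2 + v 1 ^ 2) * h

theorem B2_ref_norm (v : E) : ‖rrE 0 v‖ = ‖v‖ := by
  apply B2_norm_eq
  rw [B2_s0, B2_s1, B2_s2]
  ring

theorem B2_rot_add (a b : ℝ) (v : E) : rotE (a + b) v = rotE a (rotE b v) := by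
  apply B2_ext
  · simp only [B2_r0, B2_r1, cos_add, sin_add]
    ring
  · simp only [B2_r0, B2_r1, cos_add, sin_add]
    ring
  · simp only [B2_r2]

theorem B2_rot_zero (v : E) : rotE 0 v = v := by
  apply B2_ext
  · simp
  · simp
  · simp

/-- among the rotations there is one with small angle to `w` -/
theorem B2_pick {n : ℕ} (hn : n = 4 ∨ n = 6) (v w : E) : ∃ k : ℕ,
    0 ≤ rotE (k * (2 * π / n)) v 0 * w 0 + rotE (k * (2 * π / n)) v 1 * w 1 ∧
    (v 0 ^ 2 + v 1 ^ 2) * (w 0 ^ 2 + w 1 ^ 2) ≤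
      2 * (rotE (k * (2 * π / n)) v 0 * w 0 + rotE (k * (2 * π / n)) v 1 * w 1) ^ 2 := by
  set A := v 0 * w 0 + v 1 * w 1 with hA
  set B := v 0 * w 1 - v 1 * w 0 with hB
  have hAB : (v 0 ^ 2 + v 1 ^ 2) * (w 0 ^ 2 + w 1 ^ 2) = A ^ 2 + B ^ 2 := by
    rw [hA, hB]
    ring
  have hval : ∀ φ : ℝ, rotE φ v 0 * w 0 + rotE φ v 1 * w 1 = cos φ * A + sin φ * B := by
    intro φ
    rw [B2_r0, B2_r1, hA, hB]
    ring
  simp only [hval, hAB]
  rcases hn with rfl | rfl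
  · have c0 : cos ((0 : ℕ) * (2 * π / (4 : ℕ))) = 1 := by simp
    have s0 : sin ((0 : ℕ) * (2 * π / (4 : ℕ))) = 0 := by simp
    have e1 : ((1 : ℕ) : ℝ) * (2 * π / (4 : ℕ)) = π / 2 := by push_cast; ring
    have e2 : ((2 : ℕ) : ℝ) * (2 * π / (4 : ℕ)) = π := by push_cast; ring
    have e3 : ((3 : ℕ) : ℝ) * (2 * π / (4 : ℕ)) = π / 2 + π := by push_cast; ring
    rcases le_total (B ^ 2) (A ^ 2) with h | h
    · rcases le_total 0 A with h' | h'
      · refine ⟨0, ?_⟩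
        rw [c0, s0]
        constructor
        · nlinarith
        · nlinarith
      · refine ⟨2, ?_⟩
        rw [e2, cos_pi, sin_pi]
        constructor
        · nlinarith
        · nlinarith
    · rcases le_total 0 B with h' | h'
      · refine ⟨1, ?_⟩
        rw [e1, cos_pi_div_two, sin_pi_div_two]
        constructor
        · nlinarith
        · nlinarith
      · refine ⟨3, ?_⟩
        rw [e3, cos_add_pi, sin_add_pi, cos_pi_div_two, sin_pi_div_two]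
        constructor
        · nlinarith
        · nlinarith
  · have c0 : cos ((0 : ℕ) * (2 * π / (6 : ℕ))) = 1 := by simp
    have s0 : sin ((0 : ℕ) * (2 * π / (6 : ℕ))) = 0 := by simp
    have e1 : ((1 : ℕ) : ℝ) * (2 * π / (6 : ℕ)) = π / 3 := by push_cast; ring
    have e2 : ((2 : ℕ) : ℝ) * (2 * π / (6 : ℕ)) = π - π / 3 := by push_cast; ring
    have e3 : ((3 : ℕ) : ℝ) * (2 * π / (6 : ℕ)) = π := by push_cast; ring
    have e4 : ((4 : ℕ) : ℝ) * (2 * π / (6 : ℕ)) = π / 3 + π := by push_cast; ring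
    have e5 : ((5 : ℕ) : ℝ) * (2 * π / (6 : ℕ)) = π - π / 3 + π := by push_cast; ring
    have h3 : √3 ^ 2 = 3 := Real.sq_sqrt (by norm_num)
    have h30 : 0 ≤ √3 := Real.sqrt_nonneg 3
    rcases le_total (B ^ 2) (A ^ 2) with h | h
    · rcases le_total 0 A with h' | h'
      · refine ⟨0, ?_⟩
        rw [c0, s0]
        constructor
        · nlinarith
        · nlinarith
      · refine ⟨3, ?_⟩
        rw [e3, cos_pi, sin_pi]
        constructor
        · nlinarith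
        · nlinarith
    · rcases le_total 0 B with h' | h'
      · rcases le_total 0 A with h'' | h''
        · refine ⟨1, ?_⟩
          rw [e1, cos_pi_div_three, sin_pi_div_three]
          have q := mul_nonneg (mul_nonneg h30 h'') h'
          constructor
          · have := mul_nonneg h30 h'
            linarith
          · nlinarith [mul_nonneg h30 h']
        · refine ⟨2, ?_⟩
          rw [e2, cos_pi_sub, sin_pi_sub, cos_pi_div_three, sin_pi_div_three]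
          have q := mul_nonneg (mul_nonneg h30 (neg_nonneg.2 h'')) h'
          constructor
          · have := mul_nonneg h30 h'
            linarith
          · nlinarith [mul_nonneg h30 h']
      · rcases le_total 0 A with h'' | h''
        · refine ⟨5, ?_⟩
          rw [e5, cos_add_pi, sin_add_pi, cos_pi_sub, sin_pi_sub, cos_pi_div_three,
            sin_pi_div_three]
          have q := mul_nonneg (mul_nonneg h30 h'') (neg_nonneg.2 h')
          constructor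
          · have := mul_nonneg h30 (neg_nonneg.2 h')
            linarith
          · nlinarith [mul_nonneg h30 (neg_nonneg.2 h')]
        · refine ⟨4, ?_⟩
          rw [e4, cos_add_pi, sin_add_pi, cos_pi_div_three, sin_pi_div_three]
          have q := mul_nonneg (mul_nonneg h30 (neg_nonneg.2 h'')) (neg_nonneg.2 h')
          constructor
          · have := mul_nonneg h30 (neg_nonneg.2 h')
            linarith
          · nlinarith [mul_nonneg h30 (neg_nonneg.2 h')]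

/-- rotations preserve the cluster -/
theorem B2_rot_mem {X : Set E} {θ : ℝ} (h : Sym X 1.8 (rotE θ)) {v : E} (hv : v ∈ X)
    (hn : ‖v‖ ≤ 1.8) (k : ℕ) : rotE (k * θ) v ∈ X := by
  induction k with
  | zero =>
    rw [Nat.cast_zero, zero_mul, B2_rot_zero]
    exact hv
  | succ k ih =>
    have e : ((k + 1 : ℕ) : ℝ) * θ = θ + k * θ := by
      push_cast
      ring
    rw [e, B2_rot_add]
    exact (h _ (by rw [B2_rot_norm]; exact hn)).1 ih

theorem B2_cos {n : ℕ} (hn : n = 4 ∨ n = 6) : 0 ≤ cos (2 * π / n) ∧ sin (2 * π / n) ≠ 0 := by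
  rcases hn with rfl | rfl
  · have e : 2 * π / ((4 : ℕ) : ℝ) = π / 2 := by push_cast; ring
    rw [e, cos_pi_div_two, sin_pi_div_two]
    norm_num
  · have e : 2 * π / ((6 : ℕ) : ℝ) = π / 3 := by push_cast; ring
    rw [e, cos_pi_div_three, sin_pi_div_three]
    refine ⟨by norm_num, ?_⟩
    have : 0 < √3 := Real.sqrt_pos.2 (by norm_num)
    positivity

theorem rd_b2 (h1 : S_FINK) (h2 : S_MIN) (h3 : S_LP) : S_B2 := by
  intro r X L n H
  obtain ⟨hcos, hsin⟩ := B2_cos H.hn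
  set θ := 2 * π / n with hθ
  -- the minimal off vector
  obtain ⟨y, hyX, hy2, hyO, hmin⟩ : ∃ y ∈ X, ‖y‖ ≤ 0.2 ∧ Off y ∧
      ∀ v ∈ X, ‖v‖ ≤ 1.8 → Off v → ‖y‖ ≤ ‖v‖ := by
    have hfin : {v : E | ‖v‖ ≤ 0.2 ∧ 0 + v ∈ X ∧ Off v}.Finite :=
      (h1 r X 0 0.2 H.del).subset fun v hv => ⟨hv.1, hv.2.1⟩
    obtain ⟨v1, hv1, hv1n, hv1O⟩ := H.small
    obtain ⟨y, ⟨hy1, hy2, hy3⟩, hy4⟩ := Set.exists_min_image _ (fun v : E => ‖v‖) hfin
      ⟨v1, hv1n, by rwa [zero_add], hv1O⟩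
    rw [zero_add] at hy2
    refine ⟨y, hy2, hy1, hy3, fun v hv _ hvO => ?_⟩
    rcases le_total ‖v‖ 0.2 with h | h
    · exact hy4 v ⟨h, by rwa [zero_add], hvO⟩
    · exact hy1.trans h
  set d := ‖y‖ with hd
  have hy0 : y ≠ 0 := by
    rintro rfl
    rcases hyO with h | h <;> exact h rfl
  have hdpos : 0 < d := norm_pos_iff.2 hy0
  have hdsq := B2_nsq y
  rw [← hd] at hdsq
  -- the horizontal part of `y`
  have hyz : d ^ 2 ≤ 2 * (y 0 ^ 2 + y 1 ^ 2) := by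
    have hp : rotE θ y ∈ X := (H.srot y (by linarith)).1 hyX
    have hq : rotE (-θ) y ∈ X := by
      rw [H.srot (rotE (-θ) y) (by rw [B2_rot_norm]; linarith), ← B2_rot_add, add_neg_cancel,
        B2_rot_zero]
      exact hyX
    have e1 : ‖rotE θ y - y‖ ^ 2 = (2 - 2 * cos θ) * (y 0 ^ 2 + y 1 ^ 2) := by
      rw [B2_nsq]
      simp only [PiLp.sub_apply, B2_r0, B2_r1, B2_r2]
      linear_combination (y 0 ^ 2 + y 1 ^ 2) * sin_sq_add_cos_sq θ
    have e2 : ‖rotE (-θ) y - y‖ ^ 2 = (2 - 2 * cos θ) * (y 0 ^ 2 + y 1 ^ 2) := by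
      rw [B2_nsq]
      simp only [PiLp.sub_apply, B2_r0, B2_r1, B2_r2, cos_neg, sin_neg]
      linear_combination (y 0 ^ 2 + y 1 ^ 2) * sin_sq_add_cos_sq θ
    have e3 : ‖rotE θ y - y‖ = ‖rotE (-θ) y - y‖ :=
      (sq_eq_sq₀ (norm_nonneg _) (norm_nonneg _)).1 (e1.trans e2.symm)
    have e4 : ‖rotE θ y - y‖ ≤ 1.8 := by
      have := norm_sub_le (rotE θ y) y
      rw [B2_rot_norm] at this
      linarith
    have e5 : rotE θ y ≠ rotE (-θ) y := by
      intro h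
      have f0 := congrArg (fun v : E => v 0) h
      have f1 := congrArg (fun v : E => v 1) h
      simp only [B2_r0, B2_r1, cos_neg, sin_neg] at f0 f1
      have g0 : sin θ * y 1 = 0 := by linarith
      have g1 : sin θ * y 0 = 0 := by linarith
      rcases hyO with h' | h'
      · exact h' ((mul_eq_zero.1 g1).resolve_left hsin)
      · exact h' ((mul_eq_zero.1 g0).resolve_left hsin)
    have e6 := h3 X 1.8 d (H.nn.mono (by norm_num)) H.zero hmin y (rotE θ y) (rotE (-θ) y) hyX hp hq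
      (B2_rot_norm _ _) (B2_rot_norm _ _) e3 e4 e5
    have e7 : d ^ 2 ≤ ‖rotE θ y - y‖ ^ 2 := pow_le_pow_left₀ hdpos.le e6 2
    rw [e1] at e7
    nlinarith [sq_nonneg (y 0), sq_nonneg (y 1)]
  -- the lens partner
  obtain ⟨b, hbX, hbL, hb⟩ := H.lens 0 H.zero
  rw [sub_zero] at hbL
  have hbsq := B2_nsq b
  rw [hbL] at hbsq
  have hkey : ∀ v ∈ X, ‖v‖ ≤ 1.8 → ∃ c : ℝ, 0 ≤ c ∧
      (v 0 ^ 2 + v 1 ^ 2) * (b 0 ^ 2 + b 1 ^ 2) ≤ 2 * c ^ 2 ∧
      c + |v 2| * |b 2| ≤ ‖v‖ ^ 2 / 2 := by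
    intro v hv hvn
    obtain ⟨k, hk1, hk2⟩ := B2_pick H.hn v b
    rw [← hθ] at hk1 hk2
    set u := rotE (k * θ) v with hu
    have hun : ‖u‖ = ‖v‖ := B2_rot_norm _ _
    have huX : u ∈ X := B2_rot_mem H.srot hv hvn k
    have hu'X : rrE 0 u ∈ X := (H.ssig u (by rw [hun]; exact hvn)).1 huX
    have hin : ∀ w ∈ X, ‖w‖ = ‖v‖ → w 0 * b 0 + w 1 * b 1 + w 2 * b 2 ≤ ‖v‖ ^ 2 / 2 := by
      intro w hw hwn
      have hL := H.hL
      have g1 := hb w hw (by rw [sub_zero, hwn]; linarith)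
      have g2 : L ^ 2 ≤ ‖w - b‖ ^ 2 := pow_le_pow_left₀ (by linarith) g1 2
      have g3 := B2_nsq w
      rw [hwn] at g3
      rw [B2_nsq] at g2
      simp only [PiLp.sub_apply] at g2
      nlinarith
    have i1 := hin u huX hun
    have i2 := hin (rrE 0 u) hu'X ((B2_ref_norm u).trans hun)
    rw [B2_s0, B2_s1, B2_s2] at i2
    have hu2 : u 2 = v 2 := B2_r2 _ _
    rw [hu2] at i1 i2
    refine ⟨u 0 * b 0 + u 1 * b 1, hk1, hk2, ?_⟩
    rw [← abs_mul]
    rcases abs_cases (v 2 * b 2) with ⟨h, -⟩ | ⟨h, -⟩ <;> rw [h] <;> linarith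
  have hL := H.hL
  -- the lens partner is almost vertical
  have hb2 : (1.98 : ℝ) ≤ |b 2| := by
    obtain ⟨c, hc0, hc1, hc2⟩ := hkey y hyX (by linarith)
    rw [← hd] at hc2
    have g1 : d ^ 2 * (b 0 ^ 2 + b 1 ^ 2) ≤ (2 * c) ^ 2 := by
      nlinarith [sq_nonneg (b 0), sq_nonneg (b 1)]
    have g2 : 2 * c ≤ d ^ 2 := by
      have := mul_nonneg (abs_nonneg (y 2)) (abs_nonneg (b 2))
      linarith
    have g3 : (2 * c) ^ 2 ≤ (d ^ 2) ^ 2 := pow_le_pow_left₀ (by linarith) g2 2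
    have g4 : d ^ 2 * (b 0 ^ 2 + b 1 ^ 2) ≤ d ^ 2 * d ^ 2 := by
      calc _ ≤ _ := g1
        _ ≤ _ := g3
        _ = _ := by ring
    have g5 : b 0 ^ 2 + b 1 ^ 2 ≤ d ^ 2 := le_of_mul_le_mul_left g4 (by positivity)
    have g6 : d ^ 2 ≤ 0.04 := by nlinarith
    have g7 : (1.98 : ℝ) ^ 2 ≤ |b 2| ^ 2 := by
      rw [sq_abs]
      nlinarith
    exact (sq_le_sq₀ (by norm_num) (abs_nonneg _)).1 g7
  have hflat : ∀ v ∈ X, ‖v‖ ≤ 1.8 → |v 2| ≤ ‖v‖ ^ 2 / 3.96 := by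
    intro v hv hvn
    obtain ⟨c, hc0, -, hc2⟩ := hkey v hv hvn
    have g1 : |v 2| * 1.98 ≤ |v 2| * |b 2| := mul_le_mul_of_nonneg_left hb2 (abs_nonneg _)
    rw [le_div_iff₀ (by norm_num)]
    linarith
  -- the minimal distance
  obtain ⟨s, hs2, hs⟩ := h2 r X H.del (H.nn.mono (by norm_num))
  have hs3 : s ≤ 0.2 := by
    have := hs.le 0 H.zero y hyX hy0.symm
    rw [sub_zero] at this
    exact this.trans hy2
  have hspos := hs.pos
  have hs0 : ∀ v ∈ X, ‖v‖ = s → v 2 = 0 := by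
    intro v hv hvs
    by_contra hne
    have g1 := hflat v hv (by rw [hvs]; linarith)
    have g2 : rrE 0 v ∈ X := (H.ssig v (by rw [hvs]; linarith)).1 hv
    have g3 : v ≠ rrE 0 v := by
      intro h
      have := congrArg (fun w : E => w 2) h
      simp only [B2_s2] at this
      apply hne
      linarith
    have g4 := hs.le v hv _ g2 g3
    have g5 : ‖rrE 0 v - v‖ = 2 * |v 2| := by
      have e : ‖rrE 0 v - v‖ ^ 2 = (2 * |v 2|) ^ 2 := by
        rw [B2_nsq, mul_pow, sq_abs]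
        simp only [PiLp.sub_apply, B2_s0, B2_s1, B2_s2]
        ring
      exact (sq_eq_sq₀ (norm_nonneg _) (by positivity)).1 e
    rw [g5] at g4
    rw [hvs, le_div_iff₀ (by norm_num)] at g1
    nlinarith
  obtain ⟨v₀, hv₀X, hv₀s⟩ := hs.att 0 H.zero
  rw [sub_zero] at hv₀s
  refine ⟨s, v₀, hs3, hs, hv₀s, hs0 v₀ hv₀X hv₀s, ?_, ?_, ?_⟩
  · intro k
    exact B2_rot_mem H.srot hv₀X (by rw [hv₀s]; linarith) k
  · intro v hv hvs
    obtain ⟨k, hk1, hk2⟩ := B2_pick H.hn v₀ v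
    refine ⟨k, ?_⟩
    rw [← hθ] at hk1 hk2
    by_contra hne
    have huX : rotE (k * θ) v₀ ∈ X := B2_rot_mem H.srot hv₀X (by rw [hv₀s]; linarith) k
    have g1 := hs.le v hv _ huX hne
    have g2 : s ^ 2 ≤ ‖rotE (k * θ) v₀ - v‖ ^ 2 := pow_le_pow_left₀ hspos.le g1 2
    have g3 := B2_nsq (rotE (k * θ) v₀)
    rw [B2_rot_norm, hv₀s] at g3
    have g4 := B2_nsq v
    rw [hvs, hs0 v hv hvs] at g4
    have g5 := B2_nsq v₀
    rw [hv₀s, hs0 v₀ hv₀X hv₀s] at g5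
    rw [B2_nsq] at g2
    have hz1 : rotE (k * θ) v₀ 2 = 0 := by
      rw [B2_r2]
      exact hs0 v₀ hv₀X hv₀s
    simp only [PiLp.sub_apply] at g2
    rw [hz1, hs0 v hv hvs] at g2
    rw [hz1] at g3
    set c := rotE (k * θ) v₀ 0 * v 0 + rotE (k * θ) v₀ 1 * v 1 with hc
    have g6 : v₀ 0 ^ 2 + v₀ 1 ^ 2 = s ^ 2 := by linarith
    have g7 : v 0 ^ 2 + v 1 ^ 2 = s ^ 2 := by linarith
    rw [g6, g7] at hk2
    have g8 : 2 * c ≤ s ^ 2 := by
      rw [hc]
      nlinarith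
    have g9 : (2 * c) ^ 2 ≤ (s ^ 2) ^ 2 := pow_le_pow_left₀ (by linarith) g8 2
    have g10 : 0 < s ^ 2 * s ^ 2 := by positivity
    nlinarith
  · intro v hv hvn
    refine (hflat v hv hvn).trans ?_
    exact div_le_div_of_nonneg_left (sq_nonneg _) (by norm_num) (by norm_num)

end Pool.Agent.H860
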