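import Pool.Agent.H812.Tm.Spec4

/-!
# Project TM of helper812, part NFu: union of normal forms
-/

set_option autoImplicit false
set_option linter.unusedSectionVars false

open Real Filter Topology Set
open scoped ContDiff

namespace Pool.Agent.H860.TmNFu

open Pool.Agent.W811.Stu Pool.Agent.H812.Tm

/-- the property of the functions in the normal form -/
def Sp (δ κ : ℝ) (𝒟 : Set ℕ) (n : ℕ) (c : ℝ × (Fin n → ℝ) → ℝ)
    (F : ℝ × ℝ × ℝ × (Fin n → ℝ) → ℝ) (K : ℝ) : Prop :=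
  ∀ D ∈ 𝒟, ∀ (I : Set ℝ) (q : ℝ → P3), I.OrdConnected → I.Nonempty → ContP q I →
      (∀ t ∈ I, OnS δ (q t) ∧ |(q t).z| ≤ κ ∧ |(q t).y| ≤ κ ∧ |(stepR^[D] (q t)).z| ≤ κ) →
      ∃ (pm : Fin n → ℝ) (X : ℝ → ℝ), (∀ i, |pm i| ≤ K) ∧
        (∀ t ∈ I, |X t| ≤ K ∧ c (X t, pm) = (q t).y ∧
          F ((q t).z, X t, (stepR^[D] (q t)).z, pm) = 0 ∧
          1 / K ≤ |fderiv ℝ F ((q t).z, X t, (stepR^[D] (q t)).z, pm) (0, 1, 0, 0)| ∧
          ∀ u : P3, Tan (q t) u → ∃ ν : ℝ, fderiv ℝ c (X t, pm) (1, 0) * ν = u.y ∧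
            fderiv ℝ F ((q t).z, X t, (stepR^[D] (q t)).z, pm)
              (u.z, ν, (dRk D (q t) u).z, 0) = 0) ∧
        (∀ t ∈ I, ∀ t' ∈ I, |X t - X t'| ≤ K * (|(q t).z - (q t').z| + |(q t).y - (q t').y| +
          |(stepR^[D] (q t)).z - (stepR^[D] (q t')).z|))

theorem side {δ κ : ℝ} {𝒟 : Set ℕ} {n1 n : ℕ} {c1 : ℝ × (Fin n1 → ℝ) → ℝ}
    {F1 : ℝ × ℝ × ℝ × (Fin n1 → ℝ) → ℝ} {K1 : ℝ} (h : Sp δ κ 𝒟 n1 c1 F1 K1)
    {c : ℝ × (Fin n → ℝ) → ℝ} {F : ℝ × ℝ × ℝ × (Fin n → ℝ) → ℝ} {K : ℝ} (hK1 : 0 < K1)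
    (hK : K1 ≤ K) (ex : (Fin n1 → ℝ) → (Fin n → ℝ))
    (hex : ∀ pm, (∀ i, |pm i| ≤ K1) → ∀ i, |ex pm i| ≤ K)
    (hc : ∀ X pm, c (X, ex pm) = c1 (X, pm)) (hF : ∀ a X b pm, F (a, X, b, ex pm) = F1 (a, X, b, pm))
    (hdc : ∀ X pm v, fderiv ℝ c (X, ex pm) (v, 0) = fderiv ℝ c1 (X, pm) (v, 0))
    (hdF : ∀ a X b pm u v w, fderiv ℝ F (a, X, b, ex pm) (u, v, w, 0) =
      fderiv ℝ F1 (a, X, b, pm) (u, v, w, 0)) :
    Sp δ κ 𝒟 n c F K := by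
  intro D hD I q hI hI' hq hb
  obtain ⟨pm, X, h1, h2, h3⟩ := h D hD I q hI hI' hq hb
  refine ⟨ex pm, X, hex pm h1, fun t ht => ?_, fun t ht t' ht' => ?_⟩
  · obtain ⟨e1, e2, e3, e4, e5⟩ := h2 t ht
    refine ⟨e1.trans hK, by rw [hc, e2], by rw [hF, e3], ?_, fun u hu => ?_⟩
    · rw [hdF]
      exact (one_div_le_one_div_of_le hK1 hK).trans e4
    · obtain ⟨ν, f1, f2⟩ := e5 u hu
      exact ⟨ν, by rw [hdc, f1], by rw [hdF, f2]⟩
  · refine (h3 t ht t' ht').trans (mul_le_mul_of_nonneg_right hK ?_)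
    positivity

section Calc

variable {E E1 E2 : Type} [NormedAddCommGroup E] [NormedSpace ℝ E] [NormedAddCommGroup E1]
  [NormedSpace ℝ E1] [NormedAddCommGroup E2] [NormedSpace ℝ E2]

/-- the combination of two functions -/
def comb (s : E →L[ℝ] ℝ) (A1 : E →L[ℝ] E1) (A2 : E →L[ℝ] E2) (G1 : E1 → ℝ) (G2 : E2 → ℝ)
    (p : E) : ℝ := s p * G1 (A1 p) + (1 - s p) * G2 (A2 p)

theorem comb_contDiff (s : E →L[ℝ] ℝ) (A1 : E →L[ℝ] E1) (A2 : E →L[ℝ] E2) {G1 : E1 → ℝ}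
    {G2 : E2 → ℝ} (h1 : ContDiff ℝ ∞ G1) (h2 : ContDiff ℝ ∞ G2) :
    ContDiff ℝ ∞ (comb s A1 A2 G1 G2) :=
  (s.contDiff.mul (h1.comp A1.contDiff)).add
    ((contDiff_const.sub s.contDiff).mul (h2.comp A2.contDiff))

theorem comb_fderiv (s : E →L[ℝ] ℝ) (A1 : E →L[ℝ] E1) (A2 : E →L[ℝ] E2) {G1 : E1 → ℝ}
    {G2 : E2 → ℝ} (h1 : ContDiff ℝ ∞ G1) (h2 : ContDiff ℝ ∞ G2) (p v : E) (hv : s v = 0) :
    fderiv ℝ (comb s A1 A2 G1 G2) p v =
      s p * fderiv ℝ G1 (A1 p) (A1 v) + (1 - s p) * fderiv ℝ G2 (A2 p) (A2 v) := by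
  have one : (∞ : WithTop ℕ∞) ≠ 0 := by simp
  have d1 : HasFDerivAt (fun p => G1 (A1 p)) ((fderiv ℝ G1 (A1 p)).comp A1) p :=
    ((h1.differentiable one).differentiableAt.hasFDerivAt).comp p A1.hasFDerivAt
  have d2 : HasFDerivAt (fun p => G2 (A2 p)) ((fderiv ℝ G2 (A2 p)).comp A2) p :=
    ((h2.differentiable one).differentiableAt.hasFDerivAt).comp p A2.hasFDerivAt
  have d3 : HasFDerivAt (comb s A1 A2 G1 G2) _ p :=
    (s.hasFDerivAt.mul d1).add (((hasFDerivAt_const (1 : ℝ) p).sub s.hasFDerivAt).mul d2)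
  rw [d3.fderiv]
  simp only [_root_.add_apply, _root_.smul_apply, _root_.sub_apply, _root_.zero_apply,
    ContinuousLinearMap.comp_apply, smul_eq_mul, hv, mul_zero, sub_zero, add_zero]
  rfl

end Calc

theorem tNFu : SNFu := by
  intro δ κ 𝒟 𝒟' h h'
  obtain ⟨n1, c1, F1, K1, hc1, hF1, hK1, h1⟩ := h
  obtain ⟨n2, c2, F2, K2, hc2, hF2, hK2, h2⟩ := h'
  -- the projections
  let s : (Fin (n1 + n2 + 1) → ℝ) →L[ℝ] ℝ := ContinuousLinearMap.proj (Fin.last (n1 + n2))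
  let P1 : (Fin (n1 + n2 + 1) → ℝ) →L[ℝ] (Fin n1 → ℝ) :=
    ContinuousLinearMap.pi fun i => ContinuousLinearMap.proj (Fin.castAdd n2 i).castSucc
  let P2 : (Fin (n1 + n2 + 1) → ℝ) →L[ℝ] (Fin n2 → ℝ) :=
    ContinuousLinearMap.pi fun i => ContinuousLinearMap.proj (Fin.natAdd n1 i).castSucc
  let c : ℝ × (Fin (n1 + n2 + 1) → ℝ) → ℝ :=
    comb (s.comp (ContinuousLinearMap.snd ℝ ℝ (Fin (n1 + n2 + 1) → ℝ)))
      ((ContinuousLinearMap.id ℝ ℝ).prodMap P1) ((ContinuousLinearMap.id ℝ ℝ).prodMap P2) c1 c2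
  let F : ℝ × ℝ × ℝ × (Fin (n1 + n2 + 1) → ℝ) → ℝ :=
    comb (s.comp ((ContinuousLinearMap.snd ℝ ℝ (Fin (n1 + n2 + 1) → ℝ)).comp
        ((ContinuousLinearMap.snd ℝ ℝ (ℝ × (Fin (n1 + n2 + 1) → ℝ))).comp
          (ContinuousLinearMap.snd ℝ ℝ (ℝ × ℝ × (Fin (n1 + n2 + 1) → ℝ))))))
      ((ContinuousLinearMap.id ℝ ℝ).prodMap ((ContinuousLinearMap.id ℝ ℝ).prodMap
        ((ContinuousLinearMap.id ℝ ℝ).prodMap P1)))
      ((ContinuousLinearMap.id ℝ ℝ).prodMap ((ContinuousLinearMap.id ℝ ℝ).prodMap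
        ((ContinuousLinearMap.id ℝ ℝ).prodMap P2))) F1 F2
  have hcs : ContDiff ℝ ∞ c := comb_contDiff _ _ _ hc1 hc2
  have hFs : ContDiff ℝ ∞ F := comb_contDiff _ _ _ hF1 hF2
  let K : ℝ := max (max K1 K2) 1
  have hKK1 : K1 ≤ K := (le_max_left _ _).trans (le_max_left _ _)
  have hKK2 : K2 ≤ K := (le_max_right _ _).trans (le_max_left _ _)
  have hKone : 1 ≤ K := le_max_right _ _
  -- the extensions of the parameters
  let ex1 : (Fin n1 → ℝ) → (Fin (n1 + n2 + 1) → ℝ) := fun pm =>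
    Fin.snoc (α := fun _ => ℝ) (Fin.append pm fun _ => 0) 1
  let ex2 : (Fin n2 → ℝ) → (Fin (n1 + n2 + 1) → ℝ) := fun pm =>
    Fin.snoc (α := fun _ => ℝ) (Fin.append (fun _ => 0) pm) 0
  have x1 : ∀ pm, P1 (ex1 pm) = pm ∧ s (ex1 pm) = 1 := by
    intro pm
    refine ⟨?_, ?_⟩
    · funext i
      change Fin.snoc (α := fun _ => ℝ) (Fin.append pm fun _ => 0) 1 (Fin.castAdd n2 i).castSucc = _
      rw [Fin.snoc_castSucc, Fin.append_left]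
    · change Fin.snoc (α := fun _ => ℝ) (Fin.append pm fun _ => 0) 1 (Fin.last (n1 + n2)) = _
      rw [Fin.snoc_last]
  have x2 : ∀ pm, P2 (ex2 pm) = pm ∧ s (ex2 pm) = 0 := by
    intro pm
    refine ⟨?_, ?_⟩
    · funext i
      change Fin.snoc (α := fun _ => ℝ) (Fin.append (fun _ => 0) pm) 0 (Fin.natAdd n1 i).castSucc = _
      rw [Fin.snoc_castSucc, Fin.append_right]
    · change Fin.snoc (α := fun _ => ℝ) (Fin.append (fun _ => 0) pm) 0 (Fin.last (n1 + n2)) = _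
      rw [Fin.snoc_last]
  have s1 : Sp δ κ 𝒟 (n1 + n2 + 1) c F K := by
    refine side h1 hK1 hKK1 ex1 ?_ ?_ ?_ ?_ ?_
    · intro pm hpm i
      refine Fin.lastCases ?_ (fun i => ?_) i
      · change |Fin.snoc (α := fun _ => ℝ) (Fin.append pm fun _ => 0) 1 (Fin.last (n1 + n2))| ≤ K
        rw [Fin.snoc_last, abs_one]
        exact hKone
      · change |Fin.snoc (α := fun _ => ℝ) (Fin.append pm fun _ => 0) 1 i.castSucc| ≤ K
        rw [Fin.snoc_castSucc]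
        refine Fin.addCases (fun i => ?_) (fun i => ?_) i
        · rw [Fin.append_left]
          exact (hpm i).trans hKK1
        · rw [Fin.append_right, abs_zero]
          linarith
    · intro X pm
      change s (ex1 pm) * c1 (X, P1 (ex1 pm)) + (1 - s (ex1 pm)) * c2 (X, P2 (ex1 pm)) = _
      rw [(x1 pm).1, (x1 pm).2]
      ring
    · intro a X b pm
      change s (ex1 pm) * F1 (a, X, b, P1 (ex1 pm)) +
        (1 - s (ex1 pm)) * F2 (a, X, b, P2 (ex1 pm)) = _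
      rw [(x1 pm).1, (x1 pm).2]
      ring
    · intro X pm v
      have e := comb_fderiv (s.comp (ContinuousLinearMap.snd ℝ ℝ (Fin (n1 + n2 + 1) → ℝ)))
        ((ContinuousLinearMap.id ℝ ℝ).prodMap P1) ((ContinuousLinearMap.id ℝ ℝ).prodMap P2)
        hc1 hc2 (X, ex1 pm) (v, 0) rfl
      change fderiv ℝ c (X, ex1 pm) (v, 0) = s (ex1 pm) * fderiv ℝ c1 (X, P1 (ex1 pm)) (v, P1 0) +
        (1 - s (ex1 pm)) * fderiv ℝ c2 (X, P2 (ex1 pm)) (v, P2 0) at e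
      rw [e, (x1 pm).1, (x1 pm).2, map_zero, sub_self, zero_mul, add_zero, one_mul]
    · intro a X b pm u v w
      have e := comb_fderiv (s.comp ((ContinuousLinearMap.snd ℝ ℝ (Fin (n1 + n2 + 1) → ℝ)).comp
        ((ContinuousLinearMap.snd ℝ ℝ (ℝ × (Fin (n1 + n2 + 1) → ℝ))).comp
          (ContinuousLinearMap.snd ℝ ℝ (ℝ × ℝ × (Fin (n1 + n2 + 1) → ℝ))))))
        ((ContinuousLinearMap.id ℝ ℝ).prodMap ((ContinuousLinearMap.id ℝ ℝ).prodMap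
          ((ContinuousLinearMap.id ℝ ℝ).prodMap P1)))
        ((ContinuousLinearMap.id ℝ ℝ).prodMap ((ContinuousLinearMap.id ℝ ℝ).prodMap
          ((ContinuousLinearMap.id ℝ ℝ).prodMap P2)))
        hF1 hF2 (a, X, b, ex1 pm) (u, v, w, 0) rfl
      change fderiv ℝ F (a, X, b, ex1 pm) (u, v, w, 0) =
        s (ex1 pm) * fderiv ℝ F1 (a, X, b, P1 (ex1 pm)) (u, v, w, P1 0) +
        (1 - s (ex1 pm)) * fderiv ℝ F2 (a, X, b, P2 (ex1 pm)) (u, v, w, P2 0) at e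
      rw [e, (x1 pm).1, (x1 pm).2, map_zero, sub_self, zero_mul, add_zero, one_mul]
  have s2 : Sp δ κ 𝒟' (n1 + n2 + 1) c F K := by
    refine side h2 hK2 hKK2 ex2 ?_ ?_ ?_ ?_ ?_
    · intro pm hpm i
      refine Fin.lastCases ?_ (fun i => ?_) i
      · change |Fin.snoc (α := fun _ => ℝ) (Fin.append (fun _ => 0) pm) 0 (Fin.last (n1 + n2))| ≤ K
        rw [Fin.snoc_last, abs_zero]
        linarith
      · change |Fin.snoc (α := fun _ => ℝ) (Fin.append (fun _ => 0) pm) 0 i.castSucc| ≤ K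
        rw [Fin.snoc_castSucc]
        refine Fin.addCases (fun i => ?_) (fun i => ?_) i
        · rw [Fin.append_left, abs_zero]
          linarith
        · rw [Fin.append_right]
          exact (hpm i).trans hKK2
    · intro X pm
      change s (ex2 pm) * c1 (X, P1 (ex2 pm)) + (1 - s (ex2 pm)) * c2 (X, P2 (ex2 pm)) = _
      rw [(x2 pm).1, (x2 pm).2]
      ring
    · intro a X b pm
      change s (ex2 pm) * F1 (a, X, b, P1 (ex2 pm)) +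
        (1 - s (ex2 pm)) * F2 (a, X, b, P2 (ex2 pm)) = _
      rw [(x2 pm).1, (x2 pm).2]
      ring
    · intro X pm v
      have e := comb_fderiv (s.comp (ContinuousLinearMap.snd ℝ ℝ (Fin (n1 + n2 + 1) → ℝ)))
        ((ContinuousLinearMap.id ℝ ℝ).prodMap P1) ((ContinuousLinearMap.id ℝ ℝ).prodMap P2)
        hc1 hc2 (X, ex2 pm) (v, 0) rfl
      change fderiv ℝ c (X, ex2 pm) (v, 0) = s (ex2 pm) * fderiv ℝ c1 (X, P1 (ex2 pm)) (v, P1 0) +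
        (1 - s (ex2 pm)) * fderiv ℝ c2 (X, P2 (ex2 pm)) (v, P2 0) at e
      rw [e, (x2 pm).1, (x2 pm).2, map_zero, map_zero, sub_zero, zero_mul, zero_add, one_mul]
    · intro a X b pm u v w
      have e := comb_fderiv (s.comp ((ContinuousLinearMap.snd ℝ ℝ (Fin (n1 + n2 + 1) → ℝ)).comp
        ((ContinuousLinearMap.snd ℝ ℝ (ℝ × (Fin (n1 + n2 + 1) → ℝ))).comp
          (ContinuousLinearMap.snd ℝ ℝ (ℝ × ℝ × (Fin (n1 + n2 + 1) → ℝ))))))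
        ((ContinuousLinearMap.id ℝ ℝ).prodMap ((ContinuousLinearMap.id ℝ ℝ).prodMap
          ((ContinuousLinearMap.id ℝ ℝ).prodMap P1)))
        ((ContinuousLinearMap.id ℝ ℝ).prodMap ((ContinuousLinearMap.id ℝ ℝ).prodMap
          ((ContinuousLinearMap.id ℝ ℝ).prodMap P2)))
        hF1 hF2 (a, X, b, ex2 pm) (u, v, w, 0) rfl
      change fderiv ℝ F (a, X, b, ex2 pm) (u, v, w, 0) =
        s (ex2 pm) * fderiv ℝ F1 (a, X, b, P1 (ex2 pm)) (u, v, w, P1 0) +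
        (1 - s (ex2 pm)) * fderiv ℝ F2 (a, X, b, P2 (ex2 pm)) (u, v, w, P2 0) at e
      rw [e, (x2 pm).1, (x2 pm).2, map_zero, map_zero, sub_zero, zero_mul, zero_add, one_mul]
  refine ⟨n1 + n2 + 1, c, F, K, hcs, hFs, lt_of_lt_of_le one_pos hKone, fun D hD => ?_⟩
  rcases hD with hD | hD
  · exact s1 D hD
  · exact s2 D hD

end Pool.Agent.H860.TmNFu
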