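import Pool.Agent.H316.EM.Stm2

set_option autoImplicit false

namespace Pool.Agent.H860

open Pool.Agent.H316.EM

namespace EMR

section
variable {k : ℕ} {V : Type} [AddCommGroup V] [Module (ZMod 2) V]

/-- the homomorphism `α` -/
def alHom (D : Dat k V) : ↥(D.A₀.toAddSubgroup) →+ V where
  toFun a := D.α a.1
  map_zero' := D.αzero
  map_add' a b := D.αadd a.1 a.2 b.1 b.2

theorem not_fi_bot (D : Dat k V) : ¬ Fi (D.pre ⊥) AA := by
  intro h
  unfold Fi at h
  have hle : (D.pre ⊥).toAddSubgroup ≤ D.A₀.toAddSubgroup := fun a ha => ha.1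
  have hle2 : D.A₀.toAddSubgroup ≤ AA.toAddSubgroup := fun a ha => D.A₀le ha
  rw [← AddSubgroup.relIndex_mul_relIndex _ _ _ hle hle2] at h
  have h1 : (D.pre ⊥).toAddSubgroup.relIndex D.A₀.toAddSubgroup ≠ 0 := left_ne_zero_of_mul h
  have h2 : (D.pre ⊥).toAddSubgroup.addSubgroupOf D.A₀.toAddSubgroup = (alHom D).ker := by
    ext a
    rw [AddSubgroup.mem_addSubgroupOf, AddMonoidHom.mem_ker]
    constructor
    · intro ha
      exact (Submodule.mem_bot _).1 ha.2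
    · intro ha
      exact ⟨a.2, (Submodule.mem_bot _).2 ha⟩
  unfold AddSubgroup.relIndex at h1
  rw [h2, AddSubgroup.index_ker] at h1
  have hfin : Finite (alHom D).range := Nat.finite_of_card_ne_zero h1
  refine D.inf ?_
  have h3 : D.α '' (D.A₀ : Set KK) = ((alHom D).range : Set V) := by
    ext v
    constructor
    · rintro ⟨a, ha, rfl⟩
      exact ⟨⟨a, ha⟩, rfl⟩
    · rintro ⟨a, rfl⟩
      exact ⟨a.1, a.2, rfl⟩
  change (D.α '' (D.A₀ : Set KK)).Finite
  rw [h3]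
  exact Set.toFinite _

theorem stb_bot (D : Dat k V) : D.Stb 1 ⊥ := by
  refine ⟨?_, ?_, ?_⟩
  · intro l _ y hy
    rw [Submodule.mem_bot] at hy ⊢
    rw [hy, map_zero]
  · intro b y hy
    rw [Submodule.mem_bot] at hy ⊢
    rw [hy, map_zero]
  · intro y
    rw [Submodule.mem_bot, Submodule.mem_bot]
    constructor
    · intro hy
      rw [hy, map_zero]
    · intro hy
      exact (LinearEquiv.map_eq_zero_iff _).1 hy

theorem stb_top (D : Dat k V) : D.Stb 1 ⊤ :=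
  ⟨fun _ _ _ _ => trivial, fun _ _ _ => trivial, fun _ => ⟨fun _ => trivial, fun _ => trivial⟩⟩

/-- maximal elements of families of stable subgroups -/
theorem exists_max (hACC : S_ACC) (D : Dat k V) (P : Submodule (ZMod 2) V → Prop)
    (hP : ∀ X, P X → ∃ j, D.Stb j X) (hne : ∃ X, P X) : ∃ X, P X ∧ ∀ Y, P Y → X ≤ Y → Y = X := by
  by_contra hcon
  push Not at hcon
  obtain ⟨X0, hX0⟩ := hne
  let S := {X : Submodule (ZMod 2) V // P X}
  have hstep : ∀ X : S, ∃ Y : S, X.1 ≤ Y.1 ∧ Y.1 ≠ X.1 := by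
    intro X
    obtain ⟨Y, hY, h1, h2⟩ := hcon X.1 X.2
    exact ⟨⟨Y, hY⟩, h1, h2⟩
  choose nx hnx using hstep
  let f : ℕ → S := fun n => Nat.rec ⟨X0, hX0⟩ (fun _ X => nx X) n
  have hf : ∀ n, f (n + 1) = nx (f n) := fun n => rfl
  have hmono : Monotone fun n => (f n).1 := by
    refine monotone_nat_of_le_succ fun n => ?_
    rw [hf]
    exact (hnx (f n)).1
  obtain ⟨n, hn⟩ := hACC k V D (fun n => (f n).1) hmono (by
    intro n l hl x hx
    obtain ⟨j, hj⟩ := hP _ (f n).2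
    exact hj.1 l hl x hx)
  have := hn (n + 1) (Nat.le_succ n)
  simp only [hf] at this
  exact (hnx (f n)).2 this

end

end EMR

open EMR

theorem em_red1 : S_RED1 := by
  intro hACC hQUO k V _ _ hk D
  obtain ⟨X, ⟨⟨j, hj, hS⟩, hX⟩, hmax⟩ := exists_max hACC D
    (fun X => (∃ j, 0 < j ∧ D.Stb j X) ∧ ¬ Fi (D.pre X) AA)
    (fun X hX => by obtain ⟨⟨j, -, h⟩, -⟩ := hX; exact ⟨j, h⟩)
    ⟨⊥, ⟨1, one_pos, stb_bot D⟩, not_fi_bot D⟩
  obtain ⟨D', hA, hα, hβ, ht, -, hL⟩ := hQUO k V D j hj X hS hX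
  refine ⟨k * j, V ⧸ X, inferInstance, inferInstance, D', Nat.mul_pos hk hj, ?_⟩
  intro j' hj' Y hY hne
  set Y' : Submodule (ZMod 2) V := Y.comap X.mkQ with hY'
  have hle : X ≤ Y' := by
    intro x hx
    have h0 : X.mkQ x = 0 := (Submodule.Quotient.mk_eq_zero X).2 hx
    rw [hY', Submodule.mem_comap, h0]
    exact Y.zero_mem
  have hne' : Y' ≠ X := by
    intro h
    apply hne
    rw [Submodule.eq_bot_iff]
    intro y hy
    obtain ⟨v, rfl⟩ := X.mkQ_surjective y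
    have hv : v ∈ Y' := hy
    rw [h] at hv
    exact (Submodule.Quotient.mk_eq_zero X).2 hv
  have hpow : ∀ (n : ℕ) (v : V), (D'.t ^ n) (X.mkQ v) = X.mkQ ((D.t ^ (j * n)) v) := by
    intro n
    induction n with
    | zero => intro v; rfl
    | succ n ih =>
      intro v
      rw [pow_succ, Nat.mul_succ, pow_add, LinearEquiv.mul_apply, LinearEquiv.mul_apply, ht, ih]
  have hStb : D.Stb (j * j') Y' := by
    refine ⟨?_, ?_, ?_⟩
    · intro l hl y hy
      obtain ⟨l', hl', h⟩ := hL l hl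
      change X.mkQ (l y) ∈ Y
      rw [← h]
      exact hY.1 l' hl' _ hy
    · intro b y hy
      change X.mkQ (D.β b y) ∈ Y
      rw [← hβ]
      exact hY.2.1 b _ hy
    · intro y
      change X.mkQ y ∈ Y ↔ X.mkQ ((D.t ^ (j * j')) y) ∈ Y
      rw [← hpow]
      exact hY.2.2 _
  have hpre : D'.pre Y = D.pre Y' := by
    ext a
    rw [D'.mem_pre, D.mem_pre, hA, hα]
    rfl
  rw [hpre]
  by_contra hFi
  exact hne' (hmax Y' ⟨⟨j * j', Nat.mul_pos hj hj', hStb⟩, hFi⟩ hle)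

namespace EMR

section
variable {k : ℕ} {V : Type} [AddCommGroup V] [Module (ZMod 2) V]

/-- the automorphisms which are trivial on `Y` -/
def Fx (Y : Submodule (ZMod 2) V) : Subgroup (Au V) where
  carrier := {l | ∀ y ∈ Y, l y = y}
  one_mem' := fun _ _ => rfl
  mul_mem' := by
    intro a b ha hb y hy
    rw [LinearEquiv.mul_apply, hb y hy, ha y hy]
  inv_mem' := by
    intro a ha y hy
    have h1 : a⁻¹ (a y) = y := by
      rw [← LinearEquiv.mul_apply, inv_mul_cancel]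
      rfl
    rwa [ha y hy] at h1

theorem mem_Fx (Y : Submodule (ZMod 2) V) (l : Au V) : l ∈ Fx Y ↔ ∀ y ∈ Y, l y = y := Iff.rfl

/-- a finitely generated commutative group is Noetherian -/
theorem noeth {G : Type} [Group G] (L : Subgroup G) (hfg : L.FG)
    (hcomm : ∀ x ∈ L, ∀ y ∈ L, x * y = y * x) (P : Subgroup L → Prop) (hne : ∃ H, P H) :
    ∃ H, P H ∧ ∀ K, P K → H ≤ K → K = H := by
  let _ : CommGroup L :=
    { (inferInstance : Group L) with
      mul_comm := fun a b => Subtype.ext (hcomm a.1 a.2 b.1 b.2) }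
  have : Group.FG L := (Group.fg_iff_subgroup_fg L).2 hfg
  have : Module.Finite ℤ (Additive L) := Module.Finite.iff_addGroup_fg.2 inferInstance
  have : IsNoetherian ℤ (Additive L) := isNoetherian_of_isNoetherianRing_of_finite ℤ _
  let e : Subgroup L → Submodule ℤ (Additive L) := fun H =>
    AddSubgroup.toIntSubmodule (Subgroup.toAddSubgroup H)
  have he : ∀ H K, e H ≤ e K ↔ H ≤ K := fun H K => Iff.rfl
  obtain ⟨S, ⟨H, hH, rfl⟩, hmin⟩ := (wellFounded_gt (α := Submodule ℤ (Additive L))).has_min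
    {S | ∃ H, P H ∧ e H = S} (by
      obtain ⟨H, hH⟩ := hne
      exact ⟨e H, H, hH, rfl⟩)
  refine ⟨H, hH, fun K hK hle => le_antisymm ?_ hle⟩
  by_contra hcon
  refine hmin (e K) ⟨K, hK, rfl⟩ ?_
  refine lt_of_le_not_ge ((he H K).2 hle) ?_
  rw [he]
  exact hcon

/-- the elements of `L` of finite order on `Y` -/
def LY (D : Dat k V) (Y : Submodule (ZMod 2) V) : Subgroup D.L where
  carrier := {l | ∃ n : ℕ, 0 < n ∧ (l : Au V) ^ n ∈ Fx Y}
  one_mem' := ⟨1, one_pos, by rw [Subgroup.coe_one, one_pow]; exact (Fx Y).one_mem⟩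
  mul_mem' := by
    rintro a b ⟨n, hn, h⟩ ⟨m, hm, h'⟩
    refine ⟨n * m, Nat.mul_pos hn hm, ?_⟩
    have hc : Commute (a : Au V) (b : Au V) := D.Lcomm _ a.2 _ b.2
    rw [Subgroup.coe_mul, hc.mul_pow]
    refine (Fx Y).mul_mem ?_ ?_
    · rw [pow_mul]
      exact (Fx Y).pow_mem h m
    · rw [mul_comm, pow_mul]
      exact (Fx Y).pow_mem h' n
  inv_mem' := by
    rintro a ⟨n, hn, h⟩
    refine ⟨n, hn, ?_⟩
    rw [Subgroup.coe_inv, inv_pow]
    exact (Fx Y).inv_mem h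

theorem mem_LY (D : Dat k V) (Y : Submodule (ZMod 2) V) (l : D.L) :
    l ∈ LY D Y ↔ ∃ n : ℕ, 0 < n ∧ ∀ y ∈ Y, ((l : Au V) ^ n) y = y := Iff.rfl

theorem LY_mono (D : Dat k V) {Y Z : Submodule (ZMod 2) V} (h : Z ≤ Y) : LY D Y ≤ LY D Z := by
  rintro l ⟨n, hn, hl⟩
  exact ⟨n, hn, fun z hz => hl z (h hz)⟩

end

end EMR

theorem em_red2 : S_RED2 := by
  intro hACC hSUB k V _ _ D hk hJI
  have hVne : (⊤ : Submodule (ZMod 2) V) ≠ ⊥ := by
    intro h
    refine D.inf ?_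
    have h1 : D.α '' (D.A₀ : Set KK) ⊆ {0} := by
      rintro v -
      have : v ∈ (⊤ : Submodule (ZMod 2) V) := trivial
      rw [h] at this
      exact (Submodule.mem_bot _).1 this
    exact (Set.finite_singleton (0 : V)).subset h1
  obtain ⟨H, ⟨j, Y, hj, hY, hYne, rfl⟩, hmax⟩ := noeth D.L D.Lfg D.Lcomm
    (fun H => ∃ (j : ℕ) (Y : Submodule (ZMod 2) V), 0 < j ∧ D.Stb j Y ∧ Y ≠ ⊥ ∧ H = LY D Y)
    ⟨LY D ⊤, 1, ⊤, one_pos, stb_top D, hVne, rfl⟩
  obtain ⟨D', hA, hα, hβ, ht, hL1, hL2⟩ := hSUB k V D j hj Y hY (hJI j hj Y hY hYne)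
  have hpow : ∀ (n : ℕ) (y : Y), (((D'.t ^ n) y : Y) : V) = (D.t ^ (j * n)) y := by
    intro n
    induction n with
    | zero => intro v; rfl
    | succ n ih =>
      intro v
      rw [pow_succ, Nat.mul_succ, pow_add, LinearEquiv.mul_apply, LinearEquiv.mul_apply, ih, ht]
  have hYpow : ∀ (n : ℕ) (v : V), v ∈ Y ↔ (D.t ^ (j * n)) v ∈ Y := by
    intro n
    induction n with
    | zero => intro v; exact Iff.rfl
    | succ n ih =>
      intro v
      rw [Nat.mul_succ, pow_add, LinearEquiv.mul_apply, ← ih]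
      exact hY.2.2 v
  have hStb : ∀ (j' : ℕ) (Z : Submodule (ZMod 2) Y), D'.Stb j' Z →
      D.Stb (j * j') (Z.map Y.subtype) := by
    intro j' Z hZ
    refine ⟨?_, ?_, ?_⟩
    · rintro l hl _ ⟨z, hz, rfl⟩
      obtain ⟨l', hl', h⟩ := hL2 l hl
      refine ⟨l' z, hZ.1 l' hl' z hz, ?_⟩
      exact h z
    · rintro b _ ⟨z, hz, rfl⟩
      refine ⟨D'.β b z, hZ.2.1 b z hz, ?_⟩
      exact hβ b z
    · intro v
      constructor
      · rintro ⟨z, hz, rfl⟩
        refine ⟨(D'.t ^ j') z, (hZ.2.2 z).1 hz, ?_⟩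
        exact hpow j' z
      · rintro ⟨z, hz, hzv⟩
        have hvY : v ∈ Y := by
          rw [hYpow j' v, ← hzv]
          exact z.2
        refine ⟨⟨v, hvY⟩, (hZ.2.2 _).2 ?_, rfl⟩
        have : (D'.t ^ j') ⟨v, hvY⟩ = z := by
          apply Subtype.ext
          rw [hpow]
          exact hzv.symm
        rw [this]
        exact hz
  have hne : ∀ Z : Submodule (ZMod 2) Y, Z ≠ ⊥ → Z.map Y.subtype ≠ ⊥ := by
    intro Z hZ h
    apply hZ
    rw [Submodule.eq_bot_iff] at h ⊢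
    intro z hz
    exact Subtype.ext (h z ⟨z, hz, rfl⟩)
  refine ⟨k * j, Y, inferInstance, inferInstance, D', Nat.mul_pos hk hj, ?_, ?_⟩
  · intro j' hj' Z hZ hZne
    have h1 := hJI (j * j') (Nat.mul_pos hj hj') _ (hStb j' Z hZ) (hne Z hZne)
    have h2 : D'.pre Z = D.pre (Z.map Y.subtype) := by
      ext a
      rw [D'.mem_pre, D.mem_pre, hA]
      constructor
      · rintro ⟨h3, h4⟩
        exact ⟨h3.1, D'.α a, h4, hα a h3⟩
      · rintro ⟨h3, z, hz, hza⟩
        have h5 : a ∈ D.pre Y := ⟨h3, by rw [← hza]; exact z.2⟩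
        refine ⟨h5, ?_⟩
        have : D'.α a = z := by
          apply Subtype.ext
          rw [hα a h5]
          exact hza.symm
        rw [this]
        exact hz
    rw [h2]
    exact h1
  · intro j' hj' Z hZ hZne l' hl' ⟨n, hn, hfix⟩
    obtain ⟨l, hl, hll⟩ := hL1 l' hl'
    have hlpow : ∀ (m : ℕ) (y : Y), (((l' ^ m) y : Y) : V) = (l ^ m) y := by
      intro m
      induction m with
      | zero => intro y; rfl
      | succ m ih =>
        intro y
        rw [pow_succ, pow_succ, LinearEquiv.mul_apply, LinearEquiv.mul_apply, ih, hll]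
    have hle : Z.map Y.subtype ≤ Y := by
      rintro _ ⟨z, -, rfl⟩
      exact z.2
    have h3 := hmax (LY D (Z.map Y.subtype)) ⟨j * j', _, Nat.mul_pos hj hj', hStb j' Z hZ,
      hne Z hZne, rfl⟩ (LY_mono D hle)
    have h4 : (⟨l, hl⟩ : D.L) ∈ LY D (Z.map Y.subtype) := by
      rw [mem_LY]
      refine ⟨n, hn, ?_⟩
      rintro _ ⟨z, hz, rfl⟩
      change (l ^ n) (z : V) = z
      rw [← hlpow, hfix z hz]
    rw [h3, mem_LY] at h4
    obtain ⟨n', hn', h5⟩ := h4
    refine ⟨n', hn', ?_⟩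
    apply LinearEquiv.ext
    intro y
    apply Subtype.ext
    rw [hlpow]
    exact h5 y y.2

end Pool.Agent.H860
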