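import Pool.Agent.H979.FC.Stm

set_option autoImplicit false

open MeasureTheory ProbabilityTheory
open scoped ENNReal NNReal

/-! # S_COND of project FC (MP_c9ff92_pr) -/

namespace Pool.Agent.H860
open Pool.Agent.H979.FR Pool.Agent.H979.FC

namespace FCCond

theorem pl_true (a : ℝ≥0) : pl a {true} = ENNReal.ofReal (1 - Real.exp (-(a : ℝ))) := by
  have h1 : pl a {true} = poissonMeasure a ({0}ᶜ : Set ℕ) := by
    rw [pl, Measure.map_apply (measurable_of_countable _) (MeasurableSet.singleton _)]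
    have : (fun n : ℕ => decide (0 < n)) ⁻¹' {true} = ({0}ᶜ : Set ℕ) := by
      ext n
      simp [Nat.pos_iff_ne_zero]
    rw [this]
  rw [h1, prob_compl_eq_one_sub (MeasurableSet.singleton 0), poissonMeasure_singleton]
  rw [pow_zero, mul_one, Nat.factorial_zero, Nat.cast_one, div_one,
    ENNReal.ofReal_sub _ (Real.exp_pos _).le, ENNReal.ofReal_one]

/-- The coordinate sigma-algebras. -/
@[reducible] def cm (I : Type) (i : I) : MeasurableSpace (I → Bool) :=
  MeasurableSpace.comap (fun A : I → Bool => A i) inferInstance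

theorem cm_le (I : Type) (i : I) : cm I i ≤ (inferInstance : MeasurableSpace (I → Bool)) :=
  (measurable_pi_apply i).comap_le

theorem cm_indep {I : Type} (μ : I → ℝ≥0) : iIndep (cm I) (PF μ) := by
  have h : iIndepFun (fun (i : I) (A : I → Bool) => A i) (PF μ) :=
    iIndepFun_infinitePi (X := fun (_ : I) (a : Bool) => a) (fun _ => measurable_id)
  exact h

end FCCond

open FCCond

theorem fc_cond : S_COND := by
  intro I _ _ μ Y hY T a ha hT
  let B : Set (I → Bool) := {A | ∀ i ∈ T, A i = true}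
  let E : Set (I → Bool) := {A | (fun i => A i || decide (i ∈ T)) ∈ Y}
  have hind : Indep (⨆ i ∈ (T : Set I), cm I i) (⨆ i ∈ (T : Set I)ᶜ, cm I i) (PF μ) :=
    indep_iSup_of_disjoint (cm_le I) (cm_indep μ) disjoint_compl_right
  have hBe : B = ⋂ i ∈ T, (fun A : I → Bool => A i) ⁻¹' {true} := by
    ext A
    simp [B]
  have hB : MeasurableSet[⨆ i ∈ (T : Set I), cm I i] B := by
    rw [hBe]
    refine @Finset.measurableSet_biInter _ _ (⨆ i ∈ (T : Set I), cm I i) _ T fun i hi => ?_
    exact le_iSup₂ (f := fun (i : I) (_ : i ∈ (T : Set I)) => cm I i) i hi _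
      ⟨{true}, MeasurableSet.singleton _, rfl⟩
  have hf : @Measurable _ _ (⨆ i ∈ (T : Set I)ᶜ, cm I i) _
      (fun (A : I → Bool) i => A i || decide (i ∈ T)) := by
    refine @measurable_pi_lambda _ _ _ (⨆ i ∈ (T : Set I)ᶜ, cm I i) _ _ fun i => ?_
    by_cases hi : i ∈ T
    · simp only [hi, decide_true, Bool.or_true]
      exact @measurable_const _ _ _ (⨆ i ∈ (T : Set I)ᶜ, cm I i) _
    · simp only [hi, decide_false, Bool.or_false]
      intro s hs
      exact le_iSup₂ (f := fun (i : I) (_ : i ∈ (T : Set I)ᶜ) => cm I i) i hi _ ⟨s, hs, rfl⟩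
  have hE : MeasurableSet[⨆ i ∈ (T : Set I)ᶜ, cm I i] E := hf hY
  have hBE : PF μ (B ∩ E) = PF μ B * PF μ E := (Indep_iff _ _ _).1 hind B E hB hE
  have hPB : ENNReal.ofReal ((1 - Real.exp (-a)) ^ T.card) ≤ PF μ B := by
    have h0 : (0 : ℝ) ≤ 1 - Real.exp (-a) := by
      have : Real.exp (-a) ≤ 1 := Real.exp_le_one_iff.2 (by linarith)
      linarith
    have h1 : B = Set.pi (T : Set I) (fun _ => {true}) := by
      ext A
      simp [B, Set.mem_pi]
    rw [h1, PF, Measure.infinitePi_pi _ (fun i _ => MeasurableSet.singleton true),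
      ENNReal.ofReal_pow h0, ← Finset.prod_const]
    refine Finset.prod_le_prod' fun i hi => ?_
    rw [pl_true]
    refine ENNReal.ofReal_le_ofReal ?_
    have := Real.exp_le_exp.2 (neg_le_neg (hT i hi))
    linarith
  have hsub : B ∩ E ⊆ Y := by
    rintro A ⟨hA, hAE⟩
    have : (fun i => A i || decide (i ∈ T)) = A := by
      funext i
      by_cases hi : i ∈ T
      · simp [hi, hA i hi]
      · simp [hi]
    have hAE' : (fun i => A i || decide (i ∈ T)) ∈ Y := hAE
    rwa [this] at hAE'
  calc ENNReal.ofReal ((1 - Real.exp (-a)) ^ T.card) * PF μ E ≤ PF μ B * PF μ E :=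
        mul_le_mul_left hPB _
    _ = PF μ (B ∩ E) := hBE.symm
    _ ≤ PF μ Y := measure_mono hsub

end Pool.Agent.H860
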