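import Pool.Agent.H867.FT.Gen11

/-!
# CIF: the module of Cartier maps is finitely generated (helper860, for helper867)
-/

set_option autoImplicit false

namespace Pool.Agent.H860.FT867CIF

open Pool.Agent.H867.FT

theorem gens_aux (S M : Type) [CommRing S] [AddCommGroup M] [Module S M] [Module.Finite S M] :
    ∃ (N : ℕ) (r : Fin N → M), ∀ x : M, ∃ c : Fin N → S, x = ∑ k, c k • r k := by
  obtain ⟨N, r, hr⟩ := Module.Finite.exists_fin (R := S) (M := M)
  refine ⟨N, r, fun x => ?_⟩
  have hx : x ∈ Submodule.span S (Set.range r) := by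
    rw [hr]
    trivial
  rw [Submodule.mem_span_range_iff_exists_fun] at hx
  obtain ⟨c, hc⟩ := hx
  exact ⟨c, hc.symm⟩

/-- generators over the subring of the `p`-th powers -/
theorem gens {p : ℕ} [Fact p.Prime] {R : Type} [CommRing R] [CharP R p]
    (h : (frobenius R p).Finite) :
    ∃ (N : ℕ) (r : Fin N → R), ∀ x : R, ∃ b : Fin N → R, x = ∑ k, b k ^ p * r k :=
  @gens_aux R R _ _ (frobenius R p).toAlgebra.toModule h

section

variable {p : ℕ} [Fact p.Prime] {R K : Type} [CommRing R] [IsDomain R] [CharP R p] [Field K]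
  [Algebra R K] [IsFractionRing R K]

omit [Fact p.Prime] [IsDomain R] [CharP R p] [IsFractionRing R K] in
theorem phi_sum {N : ℕ} {r : Fin N → R} {Φ : K →+ K} (hΦ : IsCartier p Φ) (u : K)
    (b : Fin N → R) :
    Φ (u * algebraMap R K (∑ k, b k ^ p * r k)) =
      ∑ k, algebraMap R K (b k) * Φ (u * algebraMap R K (r k)) := by
  rw [map_sum, Finset.mul_sum, map_sum]
  refine Finset.sum_congr rfl fun k _ => ?_
  rw [← hΦ]
  congr 1
  rw [map_mul (algebraMap R K), map_pow (algebraMap R K)]
  ring

omit [CharP R p] in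
theorem inj {N : ℕ} {r : Fin N → R} (hr : ∀ x : R, ∃ b : Fin N → R, x = ∑ k, b k ^ p * r k)
    {Φ : K →+ K} (hΦ : IsCartier p Φ) (h0 : Φ ≠ 0) (u : K)
    (hu : ∀ k, Φ (u * algebraMap R K (r k)) = 0) : u = 0 := by
  by_contra hne
  apply h0
  have h1 : ∀ a : R, Φ (u * algebraMap R K a) = 0 := by
    intro a
    obtain ⟨b, hb⟩ := hr a
    rw [hb, phi_sum hΦ]
    exact Finset.sum_eq_zero fun k _ => by rw [hu k, mul_zero]
  ext x
  obtain ⟨a, s, hs, hx⟩ := IsFractionRing.div_surjective (A := R) (u⁻¹ * x)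
  have hs0 : algebraMap R K s ≠ 0 := by
    intro h2
    rw [map_eq_zero_iff _ (IsFractionRing.injective R K)] at h2
    exact nonZeroDivisors.ne_zero hs h2
  have hp : p ≠ 0 := (Fact.out : p.Prime).ne_zero
  have h2 : x = (algebraMap R K s)⁻¹ ^ p * (u * algebraMap R K (a * s ^ (p - 1))) := by
    have h3 : x = u * (u⁻¹ * x) := by rw [mul_inv_cancel_left₀ hne]
    rw [h3, ← hx, map_mul, map_pow]
    have h4 : algebraMap R K s ^ p = algebraMap R K s ^ (p - 1) * algebraMap R K s := by
      rw [← pow_succ, Nat.sub_add_cancel (Nat.one_le_iff_ne_zero.2 hp)]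
    rw [inv_pow, h4]
    field_simp
  rw [h2, hΦ, h1, mul_zero, AddMonoidHom.zero_apply]

end

/-- **CIF.** -/
theorem cif : Pool.Agent.H867.FT.S_CIF := by
  intro p _ R K _ _ _ _ _ _ _ hF Φ hΦ h0
  obtain ⟨N, r, hr⟩ := gens hF
  have hp : p ≠ 0 := (Fact.out : p.Prime).ne_zero
  have hinj := IsFractionRing.injective R K
  constructor
  · let W : Submodule R (Fin N → R) :=
      { carrier := {w | ∃ u ∈ CI R Φ, ∀ k, Φ (u * algebraMap R K (r k)) = algebraMap R K (w k)}
        zero_mem' := ⟨0, Submodule.zero_mem _, fun k => by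
          rw [zero_mul, map_zero, Pi.zero_apply, map_zero]⟩
        add_mem' := by
          rintro w w' ⟨u, hu, hw⟩ ⟨u', hu', hw'⟩
          exact ⟨u + u', Submodule.add_mem _ hu hu', fun k => by
            rw [add_mul, map_add, hw, hw', Pi.add_apply, map_add]⟩
        smul_mem' := by
          rintro c w ⟨u, hu, hw⟩
          refine ⟨c ^ p • u, Submodule.smul_mem _ _ hu, fun k => ?_⟩
          rw [Algebra.smul_def, map_pow, mul_assoc, hΦ, hw, Pi.smul_apply, smul_eq_mul, map_mul] }
    have hW : W.FG := IsNoetherian.noetherian W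
    obtain ⟨n, s, hs⟩ := Submodule.fg_iff_exists_fin_generating_family.1 hW
    have hsW : ∀ i, s i ∈ W := fun i => by
      rw [← hs]
      exact Submodule.subset_span ⟨i, rfl⟩
    choose v hv hvs using hsW
    rw [Submodule.fg_iff_exists_fin_generating_family]
    refine ⟨n, v, le_antisymm ?_ ?_⟩
    · rw [Submodule.span_le]
      rintro _ ⟨i, rfl⟩
      exact hv i
    · intro u hu
      have hE : ∀ k, ∃ c : R, Φ (u * algebraMap R K (r k)) = algebraMap R K c := fun k => hu (r k)
      choose w hw using hE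
      have hwW : w ∈ W := ⟨u, hu, hw⟩
      rw [← hs, Submodule.mem_span_range_iff_exists_fun] at hwW
      obtain ⟨c, hc⟩ := hwW
      have h1 : u - ∑ i, c i ^ p • v i = 0 := by
        refine inj hr hΦ h0 _ fun k => ?_
        have h2 : Φ ((∑ i, c i ^ p • v i) * algebraMap R K (r k)) = algebraMap R K (w k) := by
          rw [Finset.sum_mul, map_sum, ← hc, Finset.sum_apply, map_sum]
          refine Finset.sum_congr rfl fun i _ => ?_
          rw [Algebra.smul_def, map_pow, mul_assoc, hΦ, hvs, Pi.smul_apply, smul_eq_mul, map_mul]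
        rw [sub_mul, map_sub, hw, h2, sub_self]
      rw [sub_eq_zero.1 h1]
      exact Submodule.sum_mem _ fun i _ => Submodule.smul_mem _ _ (Submodule.subset_span ⟨i, rfl⟩)
  · obtain ⟨s, hs⟩ := IsLocalization.exist_integer_multiples_of_finite (nonZeroDivisors R)
      (fun k : Fin N => Φ (algebraMap R K (r k)))
    have hs0 : algebraMap R K (s : R) ≠ 0 := by
      intro h2
      rw [map_eq_zero_iff _ hinj] at h2
      exact nonZeroDivisors.coe_ne_zero s h2
    have hmem : (algebraMap R K (s : R)) ^ p ∈ CI R Φ := by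
      intro x
      obtain ⟨b, hb⟩ := hr x
      choose c hc using hs
      refine ⟨∑ k, b k * c k, ?_⟩
      rw [hb, hΦ]
      have h1 := phi_sum (r := r) hΦ (1 : K) b
      rw [one_mul] at h1
      rw [h1, map_sum, Finset.mul_sum]
      refine Finset.sum_congr rfl fun k _ => ?_
      rw [one_mul, map_mul, hc k, Algebra.smul_def]
      ring
    intro hbot
    rw [hbot, Submodule.mem_bot] at hmem
    exact pow_ne_zero p hs0 hmem

end Pool.Agent.H860.FT867CIF
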