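import Pool.Agent.H133.ZM.Stm

set_option autoImplicit false

/-!
# A2: exchange of two elements, with the extremal case (helper860, for helper133)
-/

namespace Pool.Agent.H860.ZMA2

open Finset Pool.Agent.H133.ZM

/-- The weight of a value. -/
def wt (t : ℤ) : ℤ := if 1 ≤ t then t - 1 else -t

lemma wt_nonneg (t : ℤ) : 0 ≤ wt t := by
  unfold wt
  split_ifs <;> omega

lemma total {ι : Type} {m : ℕ} (M : Finset ι) (u : ι → ℤ)
    (hp : ∑ e ∈ M.filter (fun e => 1 ≤ u e), u e ≤ (m : ℤ) - 1)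
    (hn : ∑ e ∈ M.filter (fun e => u e ≤ 0), (1 - u e) ≤ (m : ℤ) - 1) :
    ∑ e ∈ M, wt (u e) + M.card ≤ 2 * (m : ℤ) - 2 := by
  have h1 : ∑ e ∈ M, (wt (u e) + 1) = ∑ e ∈ M.filter (fun e => 1 ≤ u e), u e +
      ∑ e ∈ M.filter (fun e => u e ≤ 0), (1 - u e) := by
    rw [sum_filter, sum_filter, ← sum_add_distrib]
    refine sum_congr rfl fun e _ => ?_
    unfold wt
    split_ifs <;> omega
  rw [sum_add_distrib, sum_const, nsmul_eq_mul, mul_one] at h1
  linarith

lemma wt_le_of_mem {ι : Type} {S : Finset ι} {u : ι → ℤ} {W : ℤ} (h : ∑ e ∈ S, wt (u e) ≤ W)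
    {e : ι} (he : e ∈ S) : wt (u e) ≤ W :=
  (single_le_sum (f := fun e => wt (u e)) (fun i _ => wt_nonneg _) he).trans h

lemma sub_sum {ι : Type} {S M : Finset ι} (hSM : S ⊆ M) {f : ι → ℤ} (hf : ∀ e, 0 ≤ f e) {W : ℤ}
    (h : ∑ e ∈ M, f e ≤ W) : ∑ e ∈ S, f e ≤ W :=
  (sum_le_sum_of_subset_of_nonneg hSM fun i _ _ => hf i).trans h

lemma contra {ι : Type} {m : ℕ} (hm : 3 ≤ m) (S : Finset ι) (u u' : ι → ℤ) (vq v1 : ℤ)
    (hW : ∑ e ∈ S, wt (u e) ≤ (m : ℤ) - 2 - (m / 2 : ℕ))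
    (hW' : ∑ e ∈ S, wt (u' e) ≤ (m : ℤ) - 2 - (m / 2 : ℕ))
    (hN : ∑ e ∈ S, (if u e ≤ 0 then 1 - u e else 0) ≤ (m : ℤ) - 1)
    (hN' : ∑ e ∈ S, (if u' e ≤ 0 then 1 - u' e else 0) ≤ (m : ℤ) - 1)
    (hS : (S.card : ℤ) = (m : ℤ) + (m / 2 : ℕ) - 2)
    (h0 : ∀ e ∈ S, u e = 0 ↔ u' e = 0)
    (h1 : ∀ e ∈ S, u e = 1 → u' e = v1) (h2 : ∀ e ∈ S, u' e = 1 → u e = vq)
    (hv1 : v1 ≠ 0 ∧ v1 ≠ 1) (hvq : vq ≠ 0 ∧ vq ≠ 1)
    {e₁ e₂ : ι} (he₁ : e₁ ∈ S) (hu₁ : u e₁ = 1) (he₂ : e₂ ∈ S) (hu₂ : u' e₂ = 1)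
    (hdvd : (m : ℤ) ∣ vq * v1 - 1) : False := by
  obtain ⟨N, hNdef⟩ : ∃ N : ℤ, N = ∑ e ∈ S, (if u e = 0 then (1 : ℤ) else 0) := ⟨_, rfl⟩
  obtain ⟨x, hx⟩ : ∃ x : ℤ, x = ∑ e ∈ S, (if u e = 1 then (1 : ℤ) else 0) := ⟨_, rfl⟩
  obtain ⟨y, hy⟩ : ∃ y : ℤ, y = ∑ e ∈ S, (if u' e = 1 then (1 : ℤ) else 0) := ⟨_, rfl⟩
  obtain ⟨ρ, hρ⟩ : ∃ ρ : ℤ, ρ = ∑ e ∈ S,
    (if u e = 0 ∨ u e = 1 ∨ u' e = 1 then (0 : ℤ) else 1) := ⟨_, rfl⟩
  have hcount : (S.card : ℤ) = N + x + y + ρ := by
    rw [hNdef, hx, hy, hρ, ← sum_add_distrib, ← sum_add_distrib, ← sum_add_distrib,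
      card_eq_sum_ones, Nat.cast_sum]
    refine sum_congr rfl fun e he => ?_
    have a0 := h0 e he
    have a1 := h1 e he
    have a2 := h2 e he
    push_cast
    split_ifs <;> omega
  have hx1 : 1 ≤ x := by
    rw [hx]
    have h3 := single_le_sum (s := S) (f := fun e => if u e = 1 then (1 : ℤ) else 0)
      (fun i _ => by split_ifs <;> omega) he₁
    simp only [hu₁, if_true] at h3
    exact h3
  have hy1 : 1 ≤ y := by
    rw [hy]
    have h3 := single_le_sum (s := S) (f := fun e => if u' e = 1 then (1 : ℤ) else 0)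
      (fun i _ => by split_ifs <;> omega) he₂
    simp only [hu₂, if_true] at h3
    exact h3
  have hρ0 : 0 ≤ ρ := by
    rw [hρ]
    exact sum_nonneg fun i _ => by split_ifs <;> omega
  have hNle : N ≤ (m : ℤ) - 1 := by
    refine le_trans ?_ hN
    rw [hNdef]
    refine sum_le_sum fun e _ => ?_
    split_ifs <;> omega
  have hbq : wt vq ≤ (m : ℤ) - 2 - (m / 2 : ℕ) := by
    have := wt_le_of_mem hW he₂
    rwa [h2 e₂ he₂ hu₂] at this
  have hb1 : wt v1 ≤ (m : ℤ) - 2 - (m / 2 : ℕ) := by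
    have := wt_le_of_mem hW' he₁
    rwa [h1 e₁ he₁ hu₁] at this
  -- the bounds for `y` and `x`
  have hY : ∀ k : ℤ, k ≤ wt vq → k * y + ρ ≤ (m : ℤ) - 2 - (m / 2 : ℕ) := by
    intro k hk
    refine le_trans ?_ hW
    rw [hy, hρ, mul_sum, ← sum_add_distrib]
    refine sum_le_sum fun e he => ?_
    have a0 := h0 e he
    have a2 := h2 e he
    have a3 := wt_nonneg (u e)
    by_cases c2 : u' e = 1
    · rw [if_pos c2, if_pos (Or.inr (Or.inr c2)), a2 c2]
      linarith
    · rw [if_neg c2]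
      split_ifs with c3
      · linarith
      · unfold wt
        split_ifs <;> omega
  have hX : ∀ k : ℤ, k ≤ wt v1 → k * x + ρ ≤ (m : ℤ) - 2 - (m / 2 : ℕ) := by
    intro k hk
    refine le_trans ?_ hW'
    rw [hx, hρ, mul_sum, ← sum_add_distrib]
    refine sum_le_sum fun e he => ?_
    have a0 := h0 e he
    have a1 := h1 e he
    have a3 := wt_nonneg (u' e)
    by_cases c2 : u e = 1
    · rw [if_pos c2, if_pos (Or.inr (Or.inl c2)), a1 c2]
      linarith
    · rw [if_neg c2]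
      split_ifs with c3
      · linarith
      · unfold wt
        split_ifs <;> omega
  -- the negative cases
  have hYn : vq ≤ -1 → N + 2 * y ≤ (m : ℤ) - 1 := by
    intro hq
    refine le_trans ?_ hN
    rw [hNdef, hy, mul_sum, ← sum_add_distrib]
    refine sum_le_sum fun e he => ?_
    have a0 := h0 e he
    have a2 := h2 e he
    split_ifs <;> omega
  have hXn : v1 ≤ -1 → N + 2 * x ≤ (m : ℤ) - 1 := by
    intro hq
    refine le_trans ?_ hN'
    rw [hNdef, hx, mul_sum, ← sum_add_distrib]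
    refine sum_le_sum fun e he => ?_
    have a0 := h0 e he
    have a1 := h1 e he
    split_ifs <;> omega
  have wpos : ∀ t : ℤ, 2 ≤ t → wt t = t - 1 := by
    intro t ht
    unfold wt
    rw [if_pos (by omega)]
  have wneg : ∀ t : ℤ, t ≤ -1 → wt t = -t := by
    intro t ht
    unfold wt
    rw [if_neg (by omega)]
  rcases (by omega : vq ≤ -1 ∨ 2 ≤ vq) with hq | hq
  · rcases (by omega : v1 ≤ -1 ∨ 2 ≤ v1) with hv | hv
    · -- IV
      have i1 := hYn hq
      have i2 := hXn hv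
      have i3 := hY 1 (by rw [wneg vq hq]; omega)
      omega
    · -- III
      have i1 := hYn hq
      have i3 := hX 1 (by rw [wpos v1 hv]; omega)
      omega
  · rcases (by omega : v1 ≤ -1 ∨ 2 ≤ v1) with hv | hv
    · -- II
      have i1 := hXn hv
      have i3 := hY 1 (by rw [wpos vq hq]; omega)
      omega
    · -- I
      rw [wpos vq hq] at hbq hY
      rw [wpos v1 hv] at hb1 hX
      have hq3 : 3 ≤ vq := by
        by_contra hcon
        have h3 : vq = 2 := by omega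
        rw [h3] at hdvd
        have h4 := Int.le_of_dvd (by omega) hdvd
        omega
      have hv3 : 3 ≤ v1 := by
        by_contra hcon
        have h3 : v1 = 2 := by omega
        rw [h3] at hdvd
        have h4 := Int.le_of_dvd (by omega) hdvd
        omega
      have i1 := hY 2 (by omega)
      have i2 := hX 2 (by omega)
      have hq4 : vq = 3 := by
        by_contra hcon
        have i3 := hY 3 (by omega)
        omega
      have hv4 : v1 = 3 := by
        by_contra hcon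
        have i3 := hX 3 (by omega)
        omega
      rw [hq4, hv4] at hdvd
      have h8 : (m : ℤ) ∣ 8 := by
        have : (3 : ℤ) * 3 - 1 = 8 := by norm_num
        rwa [this] at hdvd
      have h9 : m ∣ 8 := by exact_mod_cast h8
      have h10 : m ≤ 8 := Nat.le_of_dvd (by norm_num) h9
      have h11 : m = 4 ∨ m = 8 := by
        clear hdvd h8 hW hW' hN hN' hS hNle hbq hb1 hY hX hYn hXn wpos wneg i1 i2
        interval_cases m <;> omega
      rcases h11 with rfl | rfl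
      · omega
      · omega

lemma cast_eq_zero {m : ℕ} {t : ℤ} (h : ((t : ℤ) : ZMod m) = 0) (h1 : -(m : ℤ) < t)
    (h2 : t < (m : ℤ)) : t = 0 := by
  have h3 : (m : ℤ) ∣ t := (ZMod.intCast_zmod_eq_zero_iff_dvd t m).1 h
  exact Int.eq_zero_of_abs_lt_dvd h3 (abs_lt.2 ⟨h1, h2⟩)

lemma xzero {ι : Type} [DecidableEq ι] {m : ℕ} (hm : 3 ≤ m) (M S : Finset ι) (hSM : S ⊆ M)
    (c : ι → ZMod m) (a g : ZMod m) (hg : IsUnit g) (v : ZMod m → ℤ)
    (hc : ∀ e ∈ M, c e = a + g * ((v (c e) : ℤ) : ZMod m))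
    (hp : ∑ e ∈ M.filter (fun e => 1 ≤ v (c e)), v (c e) ≤ (m : ℤ) - 1)
    (hn : ∑ e ∈ M.filter (fun e => v (c e) ≤ 0), (1 - v (c e)) ≤ (m : ℤ) - 1)
    (hM : M.card = LL m) (hS : LL m = S.card + 2) (hx : ∀ e ∈ S, v (c e) ≠ 1) :
    Odd m ∧ ∃ α γ : ZMod m, α ≠ γ ∧ (∀ e ∈ S, c e = α ∨ c e = γ) ∧ mu S c α = m - 1 := by
  rw [sum_filter] at hp hn
  have hT : (M \ S).card = 2 := by
    rw [card_sdiff_of_subset hSM]
    omega
  have hones : M.filter (fun e => v (c e) = 1) ⊆ M \ S := by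
    intro e he
    rw [mem_filter] at he
    rw [mem_sdiff]
    exact ⟨he.1, fun h => hx e h he.2⟩
  have hX1' := card_le_card hones
  rw [hT] at hX1'
  have hX1c : ((M.filter (fun e => v (c e) = 1)).card : ℤ) =
      ∑ e ∈ M, (if v (c e) = 1 then (1 : ℤ) else 0) := by
    rw [card_filter, Nat.cast_sum]
    refine sum_congr rfl fun e _ => ?_
    split_ifs <;> rfl
  obtain ⟨X1, hX1⟩ : ∃ X1 : ℤ, X1 = ∑ e ∈ M, (if v (c e) = 1 then (1 : ℤ) else 0) := ⟨_, rfl⟩
  obtain ⟨n2, hn2⟩ : ∃ n2 : ℤ, n2 = ∑ e ∈ M, (if 2 ≤ v (c e) then (1 : ℤ) else 0) := ⟨_, rfl⟩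
  obtain ⟨nn, hnn⟩ : ∃ nn : ℤ, nn = ∑ e ∈ M, (if v (c e) ≤ 0 then (1 : ℤ) else 0) := ⟨_, rfl⟩
  obtain ⟨ex, hex⟩ : ∃ ex : ℤ, ex = ∑ e ∈ M, (if 2 ≤ v (c e) then v (c e) - 2 else 0) := ⟨_, rfl⟩
  obtain ⟨wm, hwm⟩ : ∃ wm : ℤ, wm = ∑ e ∈ M, (if v (c e) ≤ 0 then -v (c e) else 0) := ⟨_, rfl⟩
  have hPs : ∑ e ∈ M, (if 1 ≤ v (c e) then v (c e) else 0) = X1 + 2 * n2 + ex := by
    rw [hX1, hn2, hex, mul_sum, ← sum_add_distrib, ← sum_add_distrib]
    refine sum_congr rfl fun e _ => ?_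
    split_ifs <;> omega
  have hNs : ∑ e ∈ M, (if v (c e) ≤ 0 then 1 - v (c e) else 0) = nn + wm := by
    rw [hnn, hwm, ← sum_add_distrib]
    refine sum_congr rfl fun e _ => ?_
    split_ifs <;> omega
  have hMs : (M.card : ℤ) = X1 + n2 + nn := by
    rw [hX1, hn2, hnn, ← sum_add_distrib, ← sum_add_distrib, card_eq_sum_ones, Nat.cast_sum]
    refine sum_congr rfl fun e _ => ?_
    push_cast
    split_ifs <;> omega
  have hex0 : 0 ≤ ex := by
    rw [hex]
    exact sum_nonneg fun i _ => by split_ifs <;> omega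
  have hwm0 : 0 ≤ wm := by
    rw [hwm]
    exact sum_nonneg fun i _ => by split_ifs <;> omega
  rw [hPs] at hp
  rw [hNs] at hn
  rw [← hX1] at hX1c
  have hLL : LL m = m + m / 2 := rfl
  rw [hM, hLL] at hMs
  push_cast at hMs
  have hodd : m % 2 = 1 := by omega
  have hX2 : X1 = 2 := by omega
  have hexz : ex = 0 := by omega
  have hwmz : wm = 0 := by omega
  have hnnm : nn = (m : ℤ) - 1 := by omega
  have hle2 : ∀ e ∈ M, v (c e) ≤ 2 := by
    intro e he
    have h1 := (sum_eq_zero_iff_of_nonneg (s := M)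
      (f := fun e => if 2 ≤ v (c e) then v (c e) - 2 else 0)
      (fun i _ => by split_ifs <;> omega)).1 (by rw [← hex, hexz]) e he
    by_contra hcon
    simp only [if_pos (by omega : 2 ≤ v (c e))] at h1
    omega
  have hge0 : ∀ e ∈ M, 0 ≤ v (c e) := by
    intro e he
    have h1 := (sum_eq_zero_iff_of_nonneg (s := M)
      (f := fun e => if v (c e) ≤ 0 then -v (c e) else 0)
      (fun i _ => by split_ifs <;> omega)).1 (by rw [← hwm, hwmz]) e he
    by_contra hcon
    simp only [if_pos (by omega : v (c e) ≤ 0)] at h1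
    omega
  have hones' : M.filter (fun e => v (c e) = 1) = M \ S := by
    refine eq_of_subset_of_card_le hones ?_
    rw [hT]
    omega
  refine ⟨Nat.odd_iff.2 hodd, a, a + g * 2, ?_, ?_, ?_⟩
  · intro h
    have h1 : g * 2 = 0 := by
      have := h.symm
      rwa [add_eq_left] at this
    have h2 : (2 : ZMod m) = 0 := by
      rwa [hg.mul_right_eq_zero] at h1
    have h3 : ((2 : ℤ) : ZMod m) = 0 := by exact_mod_cast h2
    have h4 := cast_eq_zero h3 (by omega) (by omega)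
    omega
  · intro e he
    have h1 := hle2 e (hSM he)
    have h2 := hge0 e (hSM he)
    have h3 := hx e he
    rcases (by omega : v (c e) = 0 ∨ v (c e) = 2) with h4 | h4
    · left
      have h5 := hc e (hSM he)
      rw [h4, Int.cast_zero, mul_zero, add_zero] at h5
      exact h5
    · right
      have h5 := hc e (hSM he)
      rw [h4] at h5
      rw [h5]
      norm_num
  · have hfe : S.filter (fun e => c e = a) = M.filter (fun e => v (c e) ≤ 0) := by
      ext e
      rw [mem_filter, mem_filter]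
      constructor
      · rintro ⟨he, hea⟩
        refine ⟨hSM he, ?_⟩
        have h5 := hc e (hSM he)
        have h6 : g * ((v (c e) : ℤ) : ZMod m) = 0 := by
          have h7 : a = a + g * ((v (c e) : ℤ) : ZMod m) := by rw [← h5, hea]
          exact (left_eq_add.1 h7)
        have h8 : ((v (c e) : ℤ) : ZMod m) = 0 := by
          rwa [hg.mul_right_eq_zero] at h6
        have h1 := hle2 e (hSM he)
        have h2 := hge0 e (hSM he)
        have h9 := cast_eq_zero h8 (by omega) (by omega)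
        omega
      · rintro ⟨he, hle⟩
        have h1 := hge0 e he
        have h2 : v (c e) = 0 := by omega
        have h3 : e ∈ S := by
          by_contra hcon
          have h4 : e ∈ M \ S := mem_sdiff.2 ⟨he, hcon⟩
          rw [← hones', mem_filter] at h4
          omega
        refine ⟨h3, ?_⟩
        have h5 := hc e he
        rw [h2, Int.cast_zero, mul_zero, add_zero] at h5
        exact h5
    unfold mu
    rw [hfe]
    have h1 : ((M.filter (fun e => v (c e) ≤ 0)).card : ℤ) =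
        ∑ e ∈ M, (if v (c e) ≤ 0 then (1 : ℤ) else 0) := by
      rw [card_filter, Nat.cast_sum]
      refine sum_congr rfl fun e _ => ?_
      split_ifs <;> rfl
    rw [← hnn, hnnm] at h1
    omega

lemma flip {ι : Type} {m : ℕ} {M : Finset ι} {c : ι → ZMod m} {a g : ZMod m}
    (h : Nrm m M c a g) : Nrm m M c (a + g) (-g) := by
  obtain ⟨hg, v, hc, hp, hn⟩ := h
  refine ⟨hg.neg, fun z => 1 - v z, ?_, ?_, ?_⟩
  · intro e he
    have h1 := hc e he
    push_cast
    linear_combination h1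
  · have h1 : M.filter (fun e => 1 ≤ 1 - v (c e)) = M.filter (fun e => v (c e) ≤ 0) := by
      refine filter_congr fun e _ => ?_
      constructor <;> intro h <;> omega
    rw [h1]
    exact hn
  · have h1 : M.filter (fun e => 1 - v (c e) ≤ 0) = M.filter (fun e => 1 ≤ v (c e)) := by
      refine filter_congr fun e _ => ?_
      constructor <;> intro h <;> omega
    rw [h1]
    refine le_trans (le_of_eq ?_) hp
    exact sum_congr rfl fun e _ => by ring

lemma peq_flip_left {m : ℕ} {a g a' g' : ZMod m} (h : PEq (a + g) (-g) a' g') : PEq a g a' g' := by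
  rcases h with ⟨h1, h2⟩ | ⟨h1, h2⟩
  · right
    exact ⟨h1, h2⟩
  · left
    refine ⟨?_, ?_⟩
    · rw [h1]
      ring
    · rw [h2]
      ring

lemma peq_flip_right {m : ℕ} {a g a' g' : ZMod m} (h : PEq a g (a' + g') (-g')) :
    PEq a g a' g' := by
  rcases h with ⟨h1, h2⟩ | ⟨h1, h2⟩
  · right
    refine ⟨?_, ?_⟩
    · rw [← h1, ← h2]
      ring
    · rw [← h2]
      ring
  · left
    have h3 : g' = g := neg_injective h2
    refine ⟨?_, h3⟩
    rw [h3] at h1
    exact add_right_cancel h1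

/-- The case of a common origin. -/
lemma core {ι : Type} [DecidableEq ι] {m : ℕ} (hm : 3 ≤ m) (M M' : Finset ι) (c : ι → ZMod m)
    (a g g' : ZMod m) (h : Nrm m M c a g) (h' : Nrm m M' c a g') (hM : M.card = LL m)
    (hM' : M'.card = LL m) (hI : LL m = (M ∩ M').card + 2) (hne : g' ≠ g) :
    Odd m ∧ ∃ α γ : ZMod m, α ≠ γ ∧ (∀ e ∈ M ∩ M', c e = α ∨ c e = γ) ∧
      mu (M ∩ M') c α = m - 1 := by
  obtain ⟨hg, v, hc, hp, hn⟩ := h
  obtain ⟨hg', v', hc', hp', hn'⟩ := h'
  have hSM : M ∩ M' ⊆ M := inter_subset_left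
  have hSM' : M ∩ M' ⊆ M' := inter_subset_right
  by_cases hx : ∀ e ∈ M ∩ M', v (c e) ≠ 1
  · exact xzero hm M (M ∩ M') hSM c a g hg v hc hp hn hM hI hx
  by_cases hy : ∀ e ∈ M ∩ M', v' (c e) ≠ 1
  · exact xzero hm M' (M ∩ M') hSM' c a g' hg' v' hc' hp' hn' hM' hI hy
  exfalso
  push Not at hx hy
  obtain ⟨e₁, he₁, hu₁⟩ := hx
  obtain ⟨e₂, he₂, hu₂⟩ := hy
  have hLL : LL m = m + m / 2 := rfl
  have hW := total M (fun e => v (c e)) hp hn
  have hW' := total M' (fun e => v' (c e)) hp' hn'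
  rw [hM, hLL] at hW
  rw [hM', hLL] at hW'
  have hWS : ∑ e ∈ M ∩ M', wt (v (c e)) ≤ (m : ℤ) - 2 - (m / 2 : ℕ) :=
    sub_sum hSM (fun e => wt_nonneg _) (by push_cast at hW ⊢; linarith)
  have hWS' : ∑ e ∈ M ∩ M', wt (v' (c e)) ≤ (m : ℤ) - 2 - (m / 2 : ℕ) :=
    sub_sum hSM' (fun e => wt_nonneg _) (by push_cast at hW' ⊢; linarith)
  rw [sum_filter] at hn hn'
  have hNS := sub_sum hSM (f := fun e => if v (c e) ≤ 0 then 1 - v (c e) else 0)
    (fun e => by split_ifs <;> omega) hn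
  have hNS' := sub_sum hSM' (f := fun e => if v' (c e) ≤ 0 then 1 - v' (c e) else 0)
    (fun e => by split_ifs <;> omega) hn'
  have hcard : ((M ∩ M').card : ℤ) = (m : ℤ) + (m / 2 : ℕ) - 2 := by
    rw [hLL] at hI
    omega
  -- bounds
  have hb : ∀ e ∈ M ∩ M', -(m : ℤ) < v (c e) ∧ v (c e) < m := by
    intro e he
    have h1 := wt_le_of_mem (u := fun e => v (c e)) hWS he
    simp only [wt] at h1
    split_ifs at h1 <;> omega
  have hb' : ∀ e ∈ M ∩ M', -(m : ℤ) < v' (c e) ∧ v' (c e) < m := by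
    intro e he
    have h1 := wt_le_of_mem (u := fun e => v' (c e)) hWS' he
    simp only [wt] at h1
    split_ifs at h1 <;> omega
  have heq : ∀ e ∈ M ∩ M', g * ((v (c e) : ℤ) : ZMod m) = g' * ((v' (c e) : ℤ) : ZMod m) := by
    intro e he
    have h1 := hc e (hSM he)
    have h2 := hc' e (hSM' he)
    have h3 : a + g * ((v (c e) : ℤ) : ZMod m) = a + g' * ((v' (c e) : ℤ) : ZMod m) := by
      rw [← h1, ← h2]
    exact add_left_cancel h3
  have h0 : ∀ e ∈ M ∩ M', v (c e) = 0 ↔ v' (c e) = 0 := by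
    intro e he
    have h1 := heq e he
    constructor
    · intro h2
      rw [h2, Int.cast_zero, mul_zero] at h1
      have h3 := hg'.mul_right_eq_zero.1 h1.symm
      exact cast_eq_zero h3 (hb' e he).1 (hb' e he).2
    · intro h2
      rw [h2, Int.cast_zero, mul_zero] at h1
      have h3 := hg.mul_right_eq_zero.1 h1
      exact cast_eq_zero h3 (hb e he).1 (hb e he).2
  have h1 : ∀ e ∈ M ∩ M', v (c e) = 1 → v' (c e) = v' (a + g) := by
    intro e he h2
    have h3 := hc e (hSM he)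
    rw [h2, Int.cast_one, mul_one] at h3
    rw [h3]
  have h2 : ∀ e ∈ M ∩ M', v' (c e) = 1 → v (c e) = v (a + g') := by
    intro e he h2
    have h3 := hc' e (hSM' he)
    rw [h2, Int.cast_one, mul_one] at h3
    rw [h3]
  have hboth : ∀ e ∈ M ∩ M', v (c e) = 1 → v' (c e) ≠ 1 := by
    intro e he h3 h4
    have h5 := heq e he
    rw [h3, h4, Int.cast_one, mul_one, mul_one] at h5
    exact hne h5.symm
  have hg1 : g = g' * ((v' (a + g) : ℤ) : ZMod m) := by
    have h3 := heq e₁ he₁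
    rwa [hu₁, h1 e₁ he₁ hu₁, Int.cast_one, mul_one] at h3
  have hg2 : g * ((v (a + g') : ℤ) : ZMod m) = g' := by
    have h3 := heq e₂ he₂
    rwa [hu₂, h2 e₂ he₂ hu₂, Int.cast_one, mul_one] at h3
  have hdvd : (m : ℤ) ∣ v (a + g') * v' (a + g) - 1 := by
    rw [← ZMod.intCast_zmod_eq_zero_iff_dvd]
    push_cast
    have h3 : g' * (((v (a + g') : ℤ) : ZMod m) * ((v' (a + g) : ℤ) : ZMod m) - 1) = 0 := by
      linear_combination hg2 - ((v (a + g') : ℤ) : ZMod m) * hg1
    exact hg'.mul_right_eq_zero.1 h3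
  refine contra hm (M ∩ M') (fun e => v (c e)) (fun e => v' (c e)) (v (a + g')) (v' (a + g))
    hWS hWS' hNS hNS' hcard h0 h1 h2 ?_ ?_ he₁ hu₁ he₂ hu₂ hdvd
  · rw [← h1 e₁ he₁ hu₁]
    refine ⟨fun h3 => ?_, hboth e₁ he₁ hu₁⟩
    have h4 := (h0 e₁ he₁).2 h3
    omega
  · rw [← h2 e₂ he₂ hu₂]
    refine ⟨fun h3 => ?_, fun h3 => hboth e₂ he₂ h3 hu₂⟩
    have h4 := (h0 e₂ he₂).1 h3
    omega

/-- **A2.** -/
theorem t_A2 : S_A2 := by
  intro m hm ι _ M M' c a g a' g' h h' hM hM' hI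
  have hLL : LL m = m + m / 2 := rfl
  have hSM : M ∩ M' ⊆ M := inter_subset_left
  have hSM' : M ∩ M' ⊆ M' := inter_subset_right
  -- a common element
  obtain ⟨e, he, hea, hea'⟩ : ∃ e ∈ M ∩ M', (c e = a ∨ c e = a + g) ∧
      (c e = a' ∨ c e = a' + g') := by
    obtain ⟨-, v, hc, hp, hn⟩ := h
    obtain ⟨-, v', hc', hp', hn'⟩ := h'
    have hW := total M (fun e => v (c e)) hp hn
    have hW' := total M' (fun e => v' (c e)) hp' hn'
    rw [hM, hLL] at hW
    rw [hM', hLL] at hW'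
    have hWS : ∑ e ∈ M ∩ M', wt (v (c e)) ≤ (m : ℤ) - 2 - (m / 2 : ℕ) :=
      sub_sum hSM (fun e => wt_nonneg _) (by push_cast at hW ⊢; linarith)
    have hWS' : ∑ e ∈ M ∩ M', wt (v' (c e)) ≤ (m : ℤ) - 2 - (m / 2 : ℕ) :=
      sub_sum hSM' (fun e => wt_nonneg _) (by push_cast at hW' ⊢; linarith)
    have hlt : ∑ e ∈ M ∩ M', (wt (v (c e)) + wt (v' (c e))) < ∑ _e ∈ M ∩ M', (1 : ℤ) := by
      rw [sum_add_distrib, sum_const, nsmul_eq_mul, mul_one]
      rw [hLL] at hI
      omega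
    obtain ⟨e, he, hlt'⟩ := exists_lt_of_sum_lt hlt
    have h1 := wt_nonneg (v (c e))
    have h2 := wt_nonneg (v' (c e))
    have h3 : wt (v (c e)) = 0 := by omega
    have h4 : wt (v' (c e)) = 0 := by omega
    have h5 : v (c e) = 0 ∨ v (c e) = 1 := by
      simp only [wt] at h3
      split_ifs at h3 <;> omega
    have h6 : v' (c e) = 0 ∨ v' (c e) = 1 := by
      simp only [wt] at h4
      split_ifs at h4 <;> omega
    refine ⟨e, he, ?_, ?_⟩
    · have h7 := hc e (hSM he)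
      rcases h5 with h5 | h5
      · left
        rw [h5, Int.cast_zero, mul_zero, add_zero] at h7
        exact h7
      · right
        rw [h5, Int.cast_one, mul_one] at h7
        exact h7
    · have h7 := hc' e (hSM' he)
      rcases h6 with h6 | h6
      · left
        rw [h6, Int.cast_zero, mul_zero, add_zero] at h7
        exact h7
      · right
        rw [h6, Int.cast_one, mul_one] at h7
        exact h7
  -- the four cases
  have key : ∀ b k k' : ZMod m, Nrm m M c b k → Nrm m M' c b k' → PEq b k b k' ∨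
      (Odd m ∧ ∃ α γ : ZMod m, α ≠ γ ∧ (∀ e ∈ M ∩ M', c e = α ∨ c e = γ) ∧
        mu (M ∩ M') c α = m - 1) := by
    intro b k k' hk hk'
    by_cases hkk : k' = k
    · left
      left
      exact ⟨rfl, hkk⟩
    · right
      exact core hm M M' c b k k' hk hk' hM hM' hI hkk
  rcases hea with hea | hea <;> rcases hea' with hea' | hea'
  · have hb : a' = a := hea'.symm.trans hea
    rcases key a g g' h (hb ▸ h') with h1 | h1
    · left
      rw [hb]
      exact h1
    · right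
      exact h1
  · have hb : a' + g' = a := hea'.symm.trans hea
    have hf := flip h'
    rw [hb] at hf
    rcases key a g (-g') h hf with h1 | h1
    · left
      refine peq_flip_right ?_
      rw [hb]
      exact h1
    · right
      exact h1
  · have hb : a' = a + g := hea'.symm.trans hea
    have hf := flip h
    rw [hb] at h'
    rcases key (a + g) (-g) g' hf h' with h1 | h1
    · left
      refine peq_flip_left ?_
      rw [hb]
      exact h1
    · right
      exact h1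
  · have hb : a' + g' = a + g := hea'.symm.trans hea
    have hf := flip h
    have hf' := flip h'
    rw [hb] at hf'
    rcases key (a + g) (-g) (-g') hf hf' with h1 | h1
    · left
      refine peq_flip_left (peq_flip_right ?_)
      rw [hb]
      exact h1
    · right
      exact h1

end Pool.Agent.H860.ZMA2
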